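import Mathlib
import Pool.Agent.Q236.CR.Stm

/-!
# Project CR, job LZ: the model `lamz z` in short intervals with additive characters
-/

set_option autoImplicit false

namespace Pool.Agent.V5helper24.CR

open Finset Filter
open Pool.Agent.Q236.CR
open Pool.Agent.H373R2.T7
open Pool.Agent.H469R2.NK (e e_add e_nat norm_e)

/-- the numbers free of small primes in a progression, in an interval -/
lemma rough_int (z q c m Y r : ℕ) (hq : 1 ≤ q) (hc : c.Coprime q) (hqz : ∀ p, p.Prime → p ∣ q → p ≤ z) :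
    |((((Ioc m (m + Y)).filter (fun n => n ≡ c [MOD q])).filter (fun n => ∀ p ∈ pz z, ¬ p ∣ n)).card : ℝ) -
      (Y : ℝ) / (Nat.totient q : ℝ) * Vz z| ≤
        2 * ((z : ℝ) + 1) ^ r + 2 * Y * Real.exp (3 * (1 + Real.log z) - r) := by
  set T := (pz z).filter (fun p => ¬ p ∣ q) with hT
  have hq0 : (0 : ℝ) < q := by exact_mod_cast hq
  have hTz : T ⊆ pz z := filter_subset _ _
  have e1 : ((Ioc m (m + Y)).filter (fun n => n ≡ c [MOD q])).filter (fun n => ∀ p ∈ pz z, ¬ p ∣ n) =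
      ((Ioc m (m + Y)).filter (fun n => n ≡ c [MOD q])).filter (fun n => ∀ p ∈ T, ¬ p ∣ n) := by
    apply filter_congr
    intro n hn
    rw [mem_filter] at hn
    constructor
    · intro h p hp
      exact h p (hTz hp)
    · intro h p hp hpn
      by_cases hpq : p ∣ q
      · have h1 : p ∣ c := (hn.2.dvd_iff hpq).1 hpn
        have h2 := Nat.dvd_gcd h1 hpq
        rw [hc] at h2
        exact (mem_pz.1 hp).2.one_lt.ne' (Nat.dvd_one.1 h2)
      · exact h p (mem_filter.2 ⟨hp, hpq⟩) hpn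
  rw [e1]
  have key := sieve_gen' ((Ioc m (m + Y)).filter (fun n => n ≡ c [MOD q])) (fun _ => (1 : ℝ))
    (fun _ _ => zero_le_one)
    (fun p n => p ∣ n) T (fun p => 1 / (p : ℝ)) (fun p hp => by
      have hp2 : (2 : ℝ) ≤ p := by exact_mod_cast (mem_pz.1 (hTz hp)).2.two_le
      constructor
      · positivity
      · rw [div_le_one (by linarith)]; linarith) ((Y : ℝ) / q) (by positivity) (fun _ => 2) r (by
      intro S hS _
      have hSp : ∀ p ∈ S, p.Prime := fun p hp => (mem_pz.1 (hTz (hS hp))).2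
      have h1 : ∀ p ∈ S, (((range p).filter (fun a => a = 0)).card : ℝ) = 1 := by
        intro p hp
        have : (range p).filter (fun a => a = 0) = {0} := by
          ext a
          rw [mem_filter, mem_range, mem_singleton]
          constructor
          · rintro ⟨_, h⟩; exact h
          · rintro rfl; exact ⟨(hSp p hp).pos, rfl⟩
        rw [this]; simp
      have h2 : ∏ p ∈ S, ((((range p).filter (fun a => a = 0)).card : ℝ) / p) = ∏ p ∈ S, (1 / (p : ℝ)) :=
        prod_congr rfl fun p hp => by rw [h1 p hp]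
      have hcount : ∀ y : ℕ, |(((Icc 1 y).filter (fun n => n ≡ c [MOD q] ∧ ∀ p ∈ S, n % p = 0)).card : ℝ) -
          (y : ℝ) / q * ∏ p ∈ S, (1 / (p : ℝ))| ≤ 1 := by
        intro y
        have h := count_sys (fun _ a => a = 0) y S hSp q hq (fun p hp => (mem_filter.1 (hS hp)).2) c
        rw [h2, prod_congr rfl h1, prod_const_one] at h
        exact h
      have h3 : ∑ i ∈ ((Ioc m (m + Y)).filter (fun n => n ≡ c [MOD q])) with ∀ p ∈ S, p ∣ i, (1 : ℝ) =
          (((Icc 1 (m + Y)).filter (fun n => n ≡ c [MOD q] ∧ ∀ p ∈ S, n % p = 0)).card : ℝ) -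
          (((Icc 1 m).filter (fun n => n ≡ c [MOD q] ∧ ∀ p ∈ S, n % p = 0)).card : ℝ) := by
        rw [sum_const, nsmul_eq_mul, mul_one, filter_filter, eq_sub_iff_add_eq, ← Nat.cast_add]
        congr 1
        rw [← card_union_of_disjoint]
        · congr 1
          ext n
          simp only [mem_union, mem_filter, mem_Ioc, mem_Icc, Nat.dvd_iff_mod_eq_zero]
          constructor
          · rintro (⟨⟨h1, h2⟩, h3⟩ | ⟨⟨h1, h2⟩, h3⟩)
            · exact ⟨⟨by omega, h2⟩, h3⟩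
            · exact ⟨⟨h1, by omega⟩, h3⟩
          · rintro ⟨⟨h1, h2⟩, h3⟩
            rcases Nat.lt_or_ge m n with h | h
            · exact Or.inl ⟨⟨h, h2⟩, h3⟩
            · exact Or.inr ⟨⟨h1, h⟩, h3⟩
        · rw [disjoint_left]
          intro n hn hn'
          simp only [mem_filter, mem_Ioc, mem_Icc] at hn hn'
          omega
      rw [h3]
      have c1 := hcount (m + Y)
      have c2 := hcount m
      rw [abs_le] at c1 c2 ⊢
      push_cast at c1
      have e3 : ((m : ℝ) + Y) / q * ∏ p ∈ S, (1 / (p : ℝ)) =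
          (m : ℝ) / q * ∏ p ∈ S, (1 / (p : ℝ)) + (Y : ℝ) / q * ∏ p ∈ S, (1 / (p : ℝ)) := by ring
      rw [e3] at c1
      constructor <;> linarith [c1.1, c1.2, c2.1, c2.2])
  have e2 : ∑ i ∈ ((Ioc m (m + Y)).filter (fun n => n ≡ c [MOD q])) with ∀ p ∈ T, ¬ p ∣ i, (1 : ℝ) =
      ((((Ioc m (m + Y)).filter (fun n => n ≡ c [MOD q])).filter (fun n => ∀ p ∈ T, ¬ p ∣ n)).card : ℝ) := by
    rw [sum_const, nsmul_eq_mul, mul_one]
  rw [e2] at key
  have e3 : (Y : ℝ) / q * ∏ p ∈ T, (1 - 1 / (p : ℝ)) = (Y : ℝ) / (Nat.totient q : ℝ) * Vz z := by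
    have h1 : ((Nat.totient q : ℕ) : ℝ) = q * ∏ p ∈ q.primeFactors, (1 - 1 / (p : ℝ)) := by
      have := Nat.totient_eq_mul_prod_factors q
      have h2 : (((Nat.totient q : ℕ) : ℚ) : ℝ) = ((q * ∏ p ∈ q.primeFactors, (1 - (p : ℚ)⁻¹) : ℚ) : ℝ) := by rw [this]
      push_cast at h2
      simp only [one_div]
      exact h2
    have h2 : Vz z = (∏ p ∈ q.primeFactors, (1 - 1 / (p : ℝ))) * ∏ p ∈ T, (1 - 1 / (p : ℝ)) := by
      unfold Vz
      have h3 : q.primeFactors = (pz z).filter (fun p => p ∣ q) := by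
        ext p
        rw [Nat.mem_primeFactors, mem_filter, mem_pz]
        constructor
        · rintro ⟨h1, h2, h3⟩
          exact ⟨⟨hqz p h1 h2, h1⟩, h2⟩
        · rintro ⟨⟨h1, h2⟩, h3⟩
          exact ⟨h2, h3, by omega⟩
      rw [h3, hT, prod_filter_mul_prod_filter_not]
    have h3 : (0 : ℝ) < ∏ p ∈ q.primeFactors, (1 - 1 / (p : ℝ)) := by
      apply prod_pos
      intro p hp
      have : (2 : ℝ) ≤ p := by exact_mod_cast (Nat.prime_of_mem_primeFactors hp).two_le
      rw [sub_pos, div_lt_one (by linarith)]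
      linarith
    rw [h1, h2]
    field_simp
  rw [e3] at key
  refine key.trans ?_
  have h4 : ∑ j ∈ range (r + 1), ∑ S ∈ T.powersetCard j, (2 : ℝ) ≤ 2 * ((z : ℝ) + 1) ^ r := by
    have h5 := card_small T r
    have h6 : ∑ j ∈ range (r + 1), ∑ S ∈ T.powersetCard j, (2 : ℝ) =
        2 * ((∑ j ∈ range (r + 1), (T.powersetCard j).card : ℕ) : ℝ) := by
      push_cast
      rw [Finset.mul_sum]
      apply sum_congr rfl
      intro j _
      rw [sum_const, nsmul_eq_mul, mul_comm]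
    rw [h6]
    apply mul_le_mul_of_nonneg_left _ (by norm_num)
    refine h5.trans ?_
    have h7 : (T.card : ℝ) ≤ z := by exact_mod_cast (card_le_card hTz).trans (card_pz_le z)
    gcongr
  have h5 : es (fun p => 1 / (p : ℝ)) T r ≤ Real.exp (3 * (1 + Real.log z) - r) := by
    refine (es_le (fun p _ => by positivity) r).trans ?_
    apply Real.exp_le_exp.2
    have h6 : ∑ p ∈ T, 1 / (p : ℝ) ≤ ∑ p ∈ pz z, 1 / (p : ℝ) :=
      sum_le_sum_of_subset_of_nonneg hTz (fun _ _ _ => by positivity)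
    have := sum_pz_le z
    linarith
  have h6 : (Y : ℝ) / q ≤ Y := div_le_self (Nat.cast_nonneg _) (by exact_mod_cast hq)
  have h7 : 2 * ((Y : ℝ) / q) * es (fun p => 1 / (p : ℝ)) T r ≤ 2 * Y * Real.exp (3 * (1 + Real.log z) - r) := by
    have h8 : 0 ≤ es (fun p => 1 / (p : ℝ)) T r := es_nonneg (fun p _ => by positivity) r
    gcongr
  linarith

/-- sum over an interval by residue classes -/
lemma sum_classes (q : ℕ) (hq : 1 ≤ q) (a m Y : ℕ) (f : ℕ → ℂ) :
    ∑ n ∈ Ioc m (m + Y), f n * e ((a : ℝ) * n / q) =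
      ∑ c ∈ range q, (∑ n ∈ (Ioc m (m + Y)).filter (fun n => n ≡ c [MOD q]), f n) * e ((a : ℝ) * c / q) := by
  have hq0 : (q : ℝ) ≠ 0 := by
    have : (0 : ℝ) < q := by exact_mod_cast hq
    exact this.ne'
  rw [← Finset.sum_fiberwise_of_maps_to (s := Ioc m (m + Y)) (t := range q) (g := fun n => n % q)
    (fun n _ => Finset.mem_range.mpr (Nat.mod_lt _ hq))]
  apply Finset.sum_congr rfl
  intro c hc
  rw [Finset.mem_range] at hc
  rw [Finset.sum_mul]
  apply Finset.sum_congr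
  · apply filter_congr
    intro n _
    unfold Nat.ModEq
    rw [Nat.mod_eq_of_lt hc]
  · intro n hn
    rw [mem_filter] at hn
    have h1 : n = q * (n / q) + c := by
      have h2 := Nat.div_add_mod n q
      have h3 : n % q = c := by
        have := hn.2
        unfold Nat.ModEq at this
        rwa [Nat.mod_eq_of_lt hc] at this
      omega
    have h2 : (a : ℝ) * n / q = (a : ℝ) * c / q + ((a * (n / q) : ℕ) : ℝ) := by
      have h3 : (n : ℝ) = q * ((n / q : ℕ) : ℝ) + c := by exact_mod_cast h1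
      rw [h3]
      push_cast
      field_simp
      ring
    rw [h2, e_add, e_nat, mul_one]

lemma rpow_log (k : ℕ) (s : ℝ) (hs : 0 < s) : ∃ X₀ : ℕ, ∀ X : ℕ, X₀ ≤ X → Real.log X ^ k ≤ (X : ℝ) ^ s := by
  have h := (isLittleO_log_rpow_rpow_atTop (k : ℝ) hs).bound (by norm_num : (0 : ℝ) < 1)
  have h2 := (tendsto_natCast_atTop_atTop (R := ℝ)).eventually h
  obtain ⟨X₀, hX₀⟩ := Filter.eventually_atTop.mp h2
  refine ⟨X₀, fun X hX => ?_⟩
  have h3 := hX₀ X hX
  rw [one_mul, Real.rpow_natCast, Real.norm_eq_abs, Real.norm_eq_abs] at h3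
  have h4 : 0 ≤ (X : ℝ) ^ s := by positivity
  rw [abs_of_nonneg h4] at h3
  exact (le_abs_self _).trans h3

/-- **LZ** -/
theorem lz : S_LZ := by
  intro B E U
  set U' := U + E + B + 1 with hU'
  obtain ⟨N0, h0⟩ := choice 1 E U' 16
  obtain ⟨n1, h1⟩ := rpow_log U' (1 / 16) (by norm_num)
  obtain ⟨n2, h2⟩ := ev_L' 4
  refine ⟨max (max N0 n1) (max n2 1), fun x hx z q hq hqB hqz hzE a m Y hY => ?_⟩
  obtain ⟨r, hr1, hr2, _⟩ := h0 x (le_trans (le_trans (le_max_left _ _) (le_max_left _ _)) hx) z hzE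
  have a1 := h1 x (le_trans (le_trans (le_max_right _ _) (le_max_left _ _)) hx)
  have hL := h2 x (le_trans (le_trans (le_max_left _ _) (le_max_right _ _)) hx)
  have hx1 : 1 ≤ x := le_trans (le_trans (le_max_right _ _) (le_max_right _ _)) hx
  have hx0 : (0 : ℝ) < x := by exact_mod_cast hx1
  set L := Real.log x with hLd
  have hL0 : 0 < L := by linarith
  have hz : 1 ≤ z := hq.trans hqz
  have hV0 : 0 < (Vz z)⁻¹ := inv_pos.2 (Vz_pos z)
  have hVinv : (Vz z)⁻¹ ≤ L ^ E := (Vz_inv_le z hz).trans hzE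
  have hzr : ((z : ℝ) + 1) ^ r ≤ (x : ℝ) ^ (1 / 16 : ℝ) := by
    have h3 : (0 : ℝ) ≤ ((z : ℝ) + 1) ^ r := by positivity
    have h4 : (((z : ℝ) + 1) ^ r) = ((((z : ℝ) + 1) ^ r) ^ 16) ^ (1 / 16 : ℝ) := by
      rw [← Real.rpow_natCast (((z : ℝ) + 1) ^ r), ← Real.rpow_mul h3]
      norm_num
    rw [h4]
    exact Real.rpow_le_rpow (by positivity) hr2 (by norm_num)
  have hY16 : (x : ℝ) ^ (1 / 16 : ℝ) * L ^ U' ≤ Y := by
    refine le_trans ?_ hY
    calc (x : ℝ) ^ (1 / 16 : ℝ) * L ^ U' ≤ (x : ℝ) ^ (1 / 16 : ℝ) * (x : ℝ) ^ (1 / 16 : ℝ) :=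
          mul_le_mul_of_nonneg_left a1 (by positivity)
      _ = (x : ℝ) ^ (1 / 8 : ℝ) := by rw [← Real.rpow_add hx0]; norm_num
  have hzrY : ((z : ℝ) + 1) ^ r ≤ Y / L ^ U' := by
    rw [le_div_iff₀ (by positivity)]
    exact le_trans (mul_le_mul_of_nonneg_right hzr (by positivity)) hY16
  have hexp : Real.exp (3 * (1 + Real.log z) - r) ≤ 1 / L ^ U' := by
    refine le_trans (le_of_eq ?_) hr1
    push_cast
    ring_nf
  -- one class
  have hclass : ∀ c ∈ range q, ‖(∑ n ∈ (Ioc m (m + Y)).filter (fun n => n ≡ c [MOD q]), (lamz z n : ℂ)) -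
      (if c.Coprime q then (Y : ℂ) / (Nat.totient q : ℂ) else 0)‖ ≤ L ^ E * (4 * Y / L ^ U') := by
    intro c _
    by_cases hc : c.Coprime q
    · rw [if_pos hc]
      have h3 := rough_int z q c m Y r hq hc (fun p hp hpq => (Nat.le_of_dvd (by omega) hpq).trans hqz)
      have h4 : ∑ n ∈ (Ioc m (m + Y)).filter (fun n => n ≡ c [MOD q]), lamz z n =
          (Vz z)⁻¹ * ((((Ioc m (m + Y)).filter (fun n => n ≡ c [MOD q])).filter
            (fun n => ∀ p ∈ pz z, ¬ p ∣ n)).card : ℝ) := by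
        unfold lamz
        rw [← sum_filter, sum_const, nsmul_eq_mul, mul_comm]
      have h5 : (∑ n ∈ (Ioc m (m + Y)).filter (fun n => n ≡ c [MOD q]), (lamz z n : ℂ)) -
          (Y : ℂ) / (Nat.totient q : ℂ) = (((Vz z)⁻¹ * (((((Ioc m (m + Y)).filter
            (fun n => n ≡ c [MOD q])).filter (fun n => ∀ p ∈ pz z, ¬ p ∣ n)).card : ℝ) -
            (Y : ℝ) / (Nat.totient q : ℝ) * Vz z) : ℝ) : ℂ) := by
        have h6 : (Vz z)⁻¹ * (((((Ioc m (m + Y)).filter
            (fun n => n ≡ c [MOD q])).filter (fun n => ∀ p ∈ pz z, ¬ p ∣ n)).card : ℝ) -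
            (Y : ℝ) / (Nat.totient q : ℝ) * Vz z) =
            (∑ n ∈ (Ioc m (m + Y)).filter (fun n => n ≡ c [MOD q]), lamz z n) -
            (Y : ℝ) / (Nat.totient q : ℝ) := by
          rw [h4]
          have := (Vz_pos z).ne'
          field_simp
        rw [h6]
        push_cast
        rfl
      rw [h5, Complex.norm_real, Real.norm_eq_abs, abs_mul, abs_of_pos hV0]
      apply mul_le_mul hVinv _ (abs_nonneg _) (by positivity)
      refine h3.trans ?_
      have h7 : 2 * (Y : ℝ) * Real.exp (3 * (1 + Real.log z) - r) ≤ 2 * Y * (1 / L ^ U') :=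
        mul_le_mul_of_nonneg_left hexp (by positivity)
      calc 2 * ((z : ℝ) + 1) ^ r + 2 * Y * Real.exp (3 * (1 + Real.log z) - r) ≤
            2 * (Y / L ^ U') + 2 * Y * (1 / L ^ U') := by linarith
        _ = 4 * Y / L ^ U' := by ring
    · rw [if_neg hc, sub_zero]
      have h3 : ∑ n ∈ (Ioc m (m + Y)).filter (fun n => n ≡ c [MOD q]), (lamz z n : ℂ) = 0 := by
        apply sum_eq_zero
        intro n hn
        rw [mem_filter] at hn
        unfold lamz
        rw [if_neg]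
        · simp
        · intro h
          obtain ⟨p, hp, hpc, hpq⟩ := Nat.Prime.not_coprime_iff_dvd.1 hc
          exact h p (mem_pz.2 ⟨(Nat.le_of_dvd (by omega) hpq).trans hqz, hp⟩) ((hn.2.dvd_iff hpq).2 hpc)
      rw [h3, norm_zero]
      positivity
  have hcc : cc q a * Y = ∑ c ∈ range q, (if c.Coprime q then (Y : ℂ) / (Nat.totient q : ℂ) else 0) *
      e ((a : ℝ) * c / q) := by
    unfold cc
    rw [Finset.sum_filter, Finset.mul_sum, Finset.sum_mul]
    apply Finset.sum_congr rfl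
    intro c _
    split_ifs
    · ring
    · ring
  rw [sum_classes q hq a m Y (fun n => (lamz z n : ℂ)), hcc, ← Finset.sum_sub_distrib]
  have hb : ∀ c ∈ range q, ‖(∑ n ∈ (Ioc m (m + Y)).filter (fun n => n ≡ c [MOD q]), (lamz z n : ℂ)) *
      e ((a : ℝ) * c / q) - (if c.Coprime q then (Y : ℂ) / (Nat.totient q : ℂ) else 0) *
      e ((a : ℝ) * c / q)‖ ≤ L ^ E * (4 * Y / L ^ U') := by
    intro c hc
    rw [← sub_mul, norm_mul, norm_e, mul_one]
    exact hclass c hc
  refine (norm_sum_le_of_le _ hb).trans ?_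
  rw [sum_const, card_range, nsmul_eq_mul]
  calc (q : ℝ) * (L ^ E * (4 * Y / L ^ U')) ≤ L ^ B * (L ^ E * (4 * Y / L ^ U')) :=
        mul_le_mul_of_nonneg_right hqB (by positivity)
    _ = 4 / L * (Y / L ^ U) := by
        have : L ^ U' = L ^ U * L ^ E * L ^ B * L := by rw [hU']; ring
        rw [this]
        field_simp
    _ ≤ 1 * (Y / L ^ U) := by
        apply mul_le_mul_of_nonneg_right _ (by positivity)
        rw [div_le_one hL0]
        exact hL
    _ = Y / L ^ U := one_mul _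

end Pool.Agent.V5helper24.CR
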