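import Mathlib
import Pool.Agent.Q236.CR.Stm

/-!
# Project CR, job DPL: Dirichlet polynomials over `χ Λ` and `χ μ` in mean square

Assembly of `S_HB`, `S_MVG`, `S_PW`, `S_CHR`, `S_FD` (statements in `Pool/Agent/Q236/CR/Stm.lean`, where the paper
proof can be found).
-/

set_option autoImplicit false

namespace Pool.Agent.V5helper24.CR

open Finset Filter MeasureTheory
open Pool.Agent.Q236.CR

/-! ### basic facts on `nt` -/

lemma cont_nt (n : ℕ) (hn : 1 ≤ n) : Continuous (fun τ : ℝ => nt τ n) := by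
  unfold nt
  have h0 : (n : ℂ) ≠ 0 := by exact_mod_cast (by omega : n ≠ 0)
  exact Continuous.const_cpow (by fun_prop) (Or.inl h0)

lemma norm_nt_le (τ : ℝ) (n : ℕ) : ‖nt τ n‖ ≤ 1 := by
  unfold nt
  rcases Nat.eq_zero_or_pos n with h | h
  · subst h
    by_cases ht : (-(τ : ℂ) * Complex.I) = 0
    · rw [ht]; simp
    · rw [Nat.cast_zero, Complex.zero_cpow ht]; simp
  · rw [Complex.norm_natCast_cpow_of_pos h]
    simp

/-! ### partial summation with the weight `log` -/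

lemma psum (a : ℕ → ℂ) (A : ℝ) (u v : ℕ) (hA : 0 ≤ A)
    (h : ∀ w, w ≤ v → ‖∑ n ∈ Ioc u w, a n‖ ≤ A) :
    ‖∑ n ∈ Ioc u v, (Real.log n : ℂ) * a n‖ ≤ 2 * A * Real.log v := by
  rcases Nat.lt_or_ge v u with hvu | huv
  · rw [Finset.Ioc_eq_empty (by omega)]
    simp only [Finset.sum_empty, norm_zero]
    exact mul_nonneg (by positivity) (Real.log_natCast_nonneg v)
  have key : ∀ w, u ≤ w → w ≤ v →
      ‖(∑ n ∈ Ioc u w, (Real.log n : ℂ) * a n) - (Real.log w : ℂ) * ∑ n ∈ Ioc u w, a n‖ ≤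
        A * (Real.log w - Real.log u) := by
    intro w hw
    induction w, hw using Nat.le_induction with
    | base => intro _; simp
    | succ w hw ih =>
      intro hwv
      have h1 := ih (by omega)
      have h2 := h w (by omega)
      rw [Finset.sum_Ioc_succ_top (by omega), Finset.sum_Ioc_succ_top (by omega)]
      have e1 : (∑ n ∈ Ioc u w, (Real.log n : ℂ) * a n) + (Real.log (w + 1 : ℕ) : ℂ) * a (w + 1) -
          (Real.log (w + 1 : ℕ) : ℂ) * ((∑ n ∈ Ioc u w, a n) + a (w + 1)) =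
          ((∑ n ∈ Ioc u w, (Real.log n : ℂ) * a n) - (Real.log w : ℂ) * ∑ n ∈ Ioc u w, a n) -
          ((Real.log (w + 1 : ℕ) - Real.log w : ℝ) : ℂ) * ∑ n ∈ Ioc u w, a n := by
        push_cast; ring
      rw [e1]
      refine (norm_sub_le _ _).trans ?_
      rw [norm_mul, Complex.norm_real, Real.norm_eq_abs]
      have h3 : 0 ≤ Real.log (w + 1 : ℕ) - Real.log w := by
        rcases Nat.eq_zero_or_pos w with hw0 | hw0
        · subst hw0; simp
        · have := Real.log_le_log (by exact_mod_cast hw0 : (0 : ℝ) < w)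
            (by exact_mod_cast Nat.le_succ w : (w : ℝ) ≤ (w + 1 : ℕ))
          linarith
      rw [abs_of_nonneg h3]
      have h4 : (Real.log (w + 1 : ℕ) - Real.log w) * ‖∑ n ∈ Ioc u w, a n‖ ≤
          (Real.log (w + 1 : ℕ) - Real.log w) * A := mul_le_mul_of_nonneg_left h2 h3
      nlinarith
  have h1 := key v huv le_rfl
  have h2 := h v le_rfl
  have h3 : ‖(Real.log v : ℂ) * ∑ n ∈ Ioc u v, a n‖ ≤ Real.log v * A := by
    rw [norm_mul, Complex.norm_real, Real.norm_eq_abs, abs_of_nonneg (Real.log_natCast_nonneg v)]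
    exact mul_le_mul_of_nonneg_left h2 (Real.log_natCast_nonneg v)
  have h4 : ‖∑ n ∈ Ioc u v, (Real.log n : ℂ) * a n‖ ≤
      ‖(∑ n ∈ Ioc u v, (Real.log n : ℂ) * a n) - (Real.log v : ℂ) * ∑ n ∈ Ioc u v, a n‖ +
      ‖(Real.log v : ℂ) * ∑ n ∈ Ioc u v, a n‖ := by
    have := norm_add_le ((∑ n ∈ Ioc u v, (Real.log n : ℂ) * a n) - (Real.log v : ℂ) * ∑ n ∈ Ioc u v, a n)
      ((Real.log v : ℂ) * ∑ n ∈ Ioc u v, a n)
    simpa using this
  have h5 : 0 ≤ A * Real.log u := mul_nonneg hA (Real.log_natCast_nonneg u)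
  nlinarith

/-! ### the kinds of factors -/

/-- the three kinds of factors -/
def Ty (g : ℕ → ℂ) (z : ℕ) (f : ℕ → ℂ) : Prop :=
  f = gmu g z ∨ f = g ∨ f = fun n => g n * (Real.log n : ℂ)

lemma one_le_log3 (n : ℕ) : 1 ≤ Real.log (n + 3) := by
  have h1 : Real.exp 1 ≤ (n : ℝ) + 3 := by
    have := Real.exp_one_lt_d9
    have hn : (0 : ℝ) ≤ n := Nat.cast_nonneg n
    linarith
  have := Real.log_le_log (Real.exp_pos 1) h1
  rwa [Real.log_exp] at this

lemma norm_mu_le (n : ℕ) : ‖((ArithmeticFunction.moebius n : ℤ) : ℂ)‖ ≤ 1 := by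
  rw [Complex.norm_intCast]
  exact_mod_cast ArithmeticFunction.abs_moebius_le_one

lemma norm_Ty (g : ℕ → ℂ) (hg : ∀ n, ‖g n‖ ≤ 1) (z : ℕ) (f : ℕ → ℂ) (hf : Ty g z f) (n : ℕ) :
    ‖f n‖ ≤ Real.log (n + 3) := by
  have h1 := one_le_log3 n
  rcases hf with h | h | h
  · rw [h]; unfold gmu
    split_ifs
    · rw [norm_mul]
      have := mul_le_mul (hg n) (norm_mu_le n) (norm_nonneg _) zero_le_one
      linarith
    · simp; linarith
  · rw [h]; linarith [hg n]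
  · rw [h]
    simp only [norm_mul, Complex.norm_real, Real.norm_eq_abs]
    rw [abs_of_nonneg (Real.log_natCast_nonneg n)]
    have h2 : Real.log n ≤ Real.log (n + 3) := by
      rcases Nat.eq_zero_or_pos n with h0 | h0
      · subst h0
        simp only [Nat.cast_zero, Real.log_zero] at h1 ⊢
        linarith
      · exact Real.log_le_log (by exact_mod_cast h0) (by linarith)
    have h3 := mul_le_mul_of_nonneg_right (hg n) (Real.log_natCast_nonneg n)
    linarith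

/-! ### real inequalities -/

lemma realA (X M Y T0 L : ℝ) (K : ℕ) (hL : 17 ≤ L) (hX : Y ^ 3 = X) (hY : 1 ≤ Y) (hM0 : 0 < M)
    (hM : M ≤ 8 * Y) (hT0 : 0 ≤ T0) (hT : T0 ≤ Y ^ 2) :
    (M / L ^ (K + 1)) ^ 2 * ((2 * T0 + X / M) * (X / M)) ≤ X ^ 2 / L ^ K := by
  have hL0 : 0 < L := by linarith
  have hX0 : 0 < X := by rw [← hX]; positivity
  have e1 : (M / L ^ (K + 1)) ^ 2 * ((2 * T0 + X / M) * (X / M)) =
      (2 * T0 * M * X + X ^ 2) / (L ^ K * L ^ (K + 2)) := by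
    field_simp
    ring
  rw [e1, ← div_div]
  have h1 : 2 * T0 * M * X ≤ 16 * X ^ 2 := by
    have : T0 * M ≤ Y ^ 2 * (8 * Y) := mul_le_mul hT hM hM0.le (by positivity)
    have h2 : T0 * M ≤ 8 * X := by rw [← hX]; nlinarith
    nlinarith
  have h2 : (17 : ℝ) ≤ L ^ (K + 2) := by
    calc (17 : ℝ) ≤ L := hL
      _ ≤ L ^ (K + 2) := le_self_pow₀ (by linarith) (by omega)
  have h3 : 0 < L ^ K := by positivity
  have h4 : 0 < L ^ (K + 2) := by positivity
  rw [div_le_iff₀ h4]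
  have h5 : (2 * T0 * M * X + X ^ 2) / L ^ K ≤ 17 * X ^ 2 / L ^ K := by
    apply div_le_div_of_nonneg_right _ h3.le
    linarith
  refine h5.trans ?_
  have h6 : 17 * X ^ 2 / L ^ K = X ^ 2 / L ^ K * 17 := by ring
  rw [h6]
  apply mul_le_mul_of_nonneg_left h2
  positivity

lemma realC1 (X M Y T0 L : ℝ) (P : ℕ) (hL : 1 ≤ L) (hX : Y ^ 3 = X) (hY : 1 ≤ Y)
    (hM : 8 * Y ≤ M) (hT0 : L ^ P ≤ T0) (hT : T0 * L ^ P ≤ Y ^ 2) (hMX : M * L ^ P ≤ X) :
    (Real.sqrt (2 * T0) + M / Real.sqrt T0) ^ 2 * ((2 * T0 + X / M) * (X / M)) ≤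
      10 * (X ^ 2 / L ^ P) := by
  have hLP : (1 : ℝ) ≤ L ^ P := one_le_pow₀ hL
  have hT1 : (1 : ℝ) ≤ T0 := hLP.trans hT0
  have hT00 : 0 < T0 := by linarith
  have hM0 : 0 < M := by linarith
  have hX0 : 0 < X := by rw [← hX]; positivity
  have hLP0 : 0 < L ^ P := by linarith
  set ε : ℝ := 1 / L ^ P with hε
  have hε0 : 0 < ε := by positivity
  have hε1 : ε ≤ 1 := by rw [hε, div_le_one hLP0]; exact hLP
  have hTε : T0 ≤ Y ^ 2 * ε := by rw [hε, mul_one_div, le_div_iff₀ hLP0]; exact hT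
  have hMε : M ≤ X * ε := by rw [hε, mul_one_div, le_div_iff₀ hLP0]; exact hMX
  have hTi : 1 / T0 ≤ ε := by rw [hε]; exact one_div_le_one_div_of_le hLP0 hT0
  set α : ℝ := X / M with hα
  have hα0 : 0 < α := by positivity
  have hαM : M * α = X := by rw [hα]; field_simp
  have hαY : α ≤ Y ^ 2 / 8 := by
    rw [hα, div_le_iff₀ hM0, ← hX]
    nlinarith [mul_le_mul_of_nonneg_left hM (by positivity : 0 ≤ Y ^ 2)]
  have s1 : Real.sqrt (2 * T0) ^ 2 = 2 * T0 := Real.sq_sqrt (by linarith)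
  have s2 : (M / Real.sqrt T0) ^ 2 = M ^ 2 * (1 / T0) := by
    rw [div_pow, Real.sq_sqrt hT00.le]; ring
  have s3 : (Real.sqrt (2 * T0) + M / Real.sqrt T0) ^ 2 ≤ 4 * T0 + 2 * (M ^ 2 * (1 / T0)) := by
    have := add_sq_le (a := Real.sqrt (2 * T0)) (b := M / Real.sqrt T0)
    rw [s1, s2] at this
    linarith
  have s4 : (Real.sqrt (2 * T0) + M / Real.sqrt T0) ^ 2 * ((2 * T0 + α) * α) ≤
      (4 * T0 + 2 * (M ^ 2 * (1 / T0))) * ((2 * T0 + α) * α) :=
    mul_le_mul_of_nonneg_right s3 (by positivity)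
  refine s4.trans ?_
  have e1 : (4 * T0 + 2 * (M ^ 2 * (1 / T0))) * ((2 * T0 + α) * α) =
      8 * (T0 ^ 2 * α) + 4 * (T0 * α ^ 2) + 4 * (M * (M * α)) * (T0 * (1 / T0)) +
        2 * (M * α) ^ 2 * (1 / T0) := by ring
  have e2 : T0 * (1 / T0) = 1 := by field_simp
  rw [e1, e2, hαM]
  have t1 : T0 ^ 2 * α ≤ (X ^ 2 * ε) / 8 := by
    have h1 : T0 ^ 2 ≤ (Y ^ 2 * ε) ^ 2 := pow_le_pow_left₀ hT00.le hTε 2
    calc T0 ^ 2 * α ≤ (Y ^ 2 * ε) ^ 2 * (Y ^ 2 / 8) :=
          mul_le_mul h1 hαY hα0.le (by positivity)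
      _ = (Y ^ 3) ^ 2 * ε / 8 * ε := by ring
      _ ≤ (Y ^ 3) ^ 2 * ε / 8 * 1 := mul_le_mul_of_nonneg_left hε1 (by positivity)
      _ = (X ^ 2 * ε) / 8 := by rw [hX]; ring
  have t2 : T0 * α ^ 2 ≤ (X ^ 2 * ε) / 64 := by
    have h1 : α ^ 2 ≤ (Y ^ 2 / 8) ^ 2 := pow_le_pow_left₀ hα0.le hαY 2
    calc T0 * α ^ 2 ≤ (Y ^ 2 * ε) * (Y ^ 2 / 8) ^ 2 := mul_le_mul hTε h1 (by positivity) (by positivity)
      _ = (Y ^ 3) ^ 2 * ε / 64 := by ring
      _ = (X ^ 2 * ε) / 64 := by rw [hX]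
  have t3 : M * X ≤ X ^ 2 * ε := by nlinarith
  have t4 : X ^ 2 * (1 / T0) ≤ X ^ 2 * ε := mul_le_mul_of_nonneg_left hTi (by positivity)
  have e3 : X ^ 2 / L ^ P = X ^ 2 * ε := by rw [hε]; ring
  rw [e3]
  have : 0 < X ^ 2 * ε := by positivity
  nlinarith

lemma realC2 (X M Y T0 L : ℝ) (P : ℕ) (hL : 1 ≤ L) (hX : Y ^ 3 = X) (hY : 1 ≤ Y)
    (hM0 : 0 < M) (hM : M ≤ 18 ^ 6 * X) (hT0 : L ^ P ≤ T0) (hT : T0 * L ^ P ≤ Y ^ 2) (hMX : X ≤ M * L ^ P) :
    (M / T0 + 2 * T0) ^ 2 * ((2 * T0 + X / M) * (X / M)) ≤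
      136048922 * (X ^ 2 / L ^ P) := by
  have hLP : (1 : ℝ) ≤ L ^ P := one_le_pow₀ hL
  have hT1 : (1 : ℝ) ≤ T0 := hLP.trans hT0
  have hT00 : 0 < T0 := by linarith
  have hX0 : 0 < X := by rw [← hX]; positivity
  have hLP0 : 0 < L ^ P := by linarith
  set ε : ℝ := 1 / L ^ P with hε
  have hε0 : 0 < ε := by positivity
  have hε1 : ε ≤ 1 := by rw [hε, div_le_one hLP0]; exact hLP
  have hTε : T0 ≤ Y ^ 2 * ε := by rw [hε, mul_one_div, le_div_iff₀ hLP0]; exact hT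
  have hTi : 1 / T0 ≤ ε := by rw [hε]; exact one_div_le_one_div_of_le hLP0 hT0
  have hTi1 : 1 / T0 ≤ 1 := by rw [div_le_one hT00]; exact hT1
  have hTi0 : 0 < 1 / T0 := by positivity
  set α : ℝ := X / M with hα
  have hα0 : 0 < α := by positivity
  have hαM : M * α = X := by rw [hα]; field_simp
  have hαL : α * ε ≤ 1 := by
    rw [hα, hε, div_mul_div_comm, mul_one, div_le_one (by positivity)]
    exact hMX
  have s3 : (M / T0 + 2 * T0) ^ 2 ≤ 2 * (M * (1 / T0)) ^ 2 + 8 * T0 ^ 2 := by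
    have := add_sq_le (a := M / T0) (b := 2 * T0)
    have e : M / T0 = M * (1 / T0) := by ring
    rw [e] at this ⊢
    nlinarith
  have s4 := mul_le_mul_of_nonneg_right s3 (by positivity : 0 ≤ (2 * T0 + α) * α)
  refine s4.trans ?_
  have e1 : (2 * (M * (1 / T0)) ^ 2 + 8 * T0 ^ 2) * ((2 * T0 + α) * α) =
      4 * (M * (M * α)) * (T0 * (1 / T0)) * (1 / T0) + 2 * (M * α) ^ 2 * (1 / T0) * (1 / T0) +
      16 * (T0 ^ 3 * α) + 8 * (T0 ^ 2 * α ^ 2) := by ring
  have e2 : T0 * (1 / T0) = 1 := by field_simp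
  rw [e1, e2, hαM]
  have hX2 : 0 < X ^ 2 * ε := by positivity
  have t1 : M * X * (1 / T0) ≤ 18 ^ 6 * (X ^ 2 * ε) := by
    calc M * X * (1 / T0) ≤ (18 ^ 6 * X) * X * ε :=
          mul_le_mul (mul_le_mul_of_nonneg_right hM hX0.le) hTi hTi0.le (by positivity)
      _ = 18 ^ 6 * (X ^ 2 * ε) := by ring
  have t2 : X ^ 2 * (1 / T0) * (1 / T0) ≤ X ^ 2 * ε := by
    calc X ^ 2 * (1 / T0) * (1 / T0) ≤ X ^ 2 * ε * 1 :=
          mul_le_mul (mul_le_mul_of_nonneg_left hTi (by positivity)) hTi1 hTi0.le (by positivity)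
      _ = X ^ 2 * ε := by ring
  have hT3 : T0 ^ 3 ≤ X ^ 2 * ε ^ 3 := by
    calc T0 ^ 3 ≤ (Y ^ 2 * ε) ^ 3 := pow_le_pow_left₀ hT00.le hTε 3
      _ = (Y ^ 3) ^ 2 * ε ^ 3 := by ring
      _ = X ^ 2 * ε ^ 3 := by rw [hX]
  have t3 : T0 ^ 3 * α ≤ X ^ 2 * ε := by
    calc T0 ^ 3 * α ≤ X ^ 2 * ε ^ 3 * α := mul_le_mul_of_nonneg_right hT3 hα0.le
      _ = X ^ 2 * ε * (ε * (α * ε)) := by ring
      _ ≤ X ^ 2 * ε * (1 * 1) := by
          apply mul_le_mul_of_nonneg_left _ hX2.le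
          exact mul_le_mul hε1 hαL (by positivity) zero_le_one
      _ = X ^ 2 * ε := by ring
  have t4 : T0 ^ 2 * α ^ 2 ≤ X ^ 2 * ε := by
    have h1 : T0 ^ 2 ≤ T0 ^ 3 := pow_le_pow_right₀ hT1 (by norm_num)
    calc T0 ^ 2 * α ^ 2 ≤ X ^ 2 * ε ^ 3 * α ^ 2 :=
          mul_le_mul_of_nonneg_right (h1.trans hT3) (by positivity)
      _ = X ^ 2 * ε * (α * ε) ^ 2 := by ring
      _ ≤ X ^ 2 * ε * 1 := by
          apply mul_le_mul_of_nonneg_left _ hX2.le
          exact pow_le_one₀ (by positivity) hαL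
      _ = X ^ 2 * ε := by ring
  have e3 : X ^ 2 / L ^ P = X ^ 2 * ε := by rw [hε]; ring
  rw [e3]
  nlinarith

/-! ### blocks -/

/-- bounds for the blocks imply `Good` -/
lemma good_of (X : ℕ) (T0 T : ℝ) (K : ℕ) (F : ℕ → ℂ) (M : ℕ) (D : ℝ) (hT : 0 ≤ T)
    (hD : ∀ u v : ℕ, M ≤ u + 1 → v ≤ 2 * M → ∀ τ : ℝ, T0 ≤ |τ| → |τ| ≤ T →
      ‖∑ n ∈ Ioc u v, F n * nt τ n‖ ≤ D)
    (h : D ^ 2 * ((T + X / M) * (X / M)) ≤ (X : ℝ) ^ 2 / Real.log X ^ K) : Good X T0 T K F M := by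
  intro u v hu hv τ h1 h2
  refine le_trans ?_ h
  apply mul_le_mul_of_nonneg_right _ (by positivity)
  exact pow_le_pow_left₀ (norm_nonneg _) (hD u v hu hv τ h1 h2) 2

lemma block23 (g f : ℕ → ℂ) (hf : f = g ∨ f = fun n => g n * (Real.log n : ℂ)) (M : ℕ) (hM : 1 ≤ M)
    (A L τ : ℝ) (hA0 : 0 ≤ A) (hL : 1 + Real.log (2 * M) ≤ 3 * L)
    (hA : ∀ u v, M ≤ u + 1 → v ≤ 2 * M → ‖∑ n ∈ Ioc u v, g n * nt τ n‖ ≤ A)
    (u v : ℕ) (hu : M ≤ u + 1) (hv : v ≤ 2 * M) : ‖∑ n ∈ Ioc u v, f n * nt τ n‖ ≤ 6 * L * A := by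
  have hM' : (1 : ℝ) ≤ M := by exact_mod_cast hM
  have hlog : 0 ≤ Real.log (2 * M) := Real.log_nonneg (by linarith)
  rcases hf with h | h
  · rw [h]
    have := hA u v hu hv
    have h2 : A ≤ 6 * L * A := by nlinarith
    linarith
  · have e : ∑ n ∈ Ioc u v, f n * nt τ n = ∑ n ∈ Ioc u v, (Real.log n : ℂ) * (g n * nt τ n) := by
      apply Finset.sum_congr rfl
      intro n _
      rw [h]
      ring
    rw [e]
    have h1 := psum (fun n => g n * nt τ n) A u v hA0 (fun w hw => hA u w hu (by omega))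
    have h2 : Real.log v ≤ Real.log (2 * M) := by
      rcases Nat.eq_zero_or_pos v with h0 | h0
      · rw [h0, Nat.cast_zero, Real.log_zero]; exact hlog
      · exact Real.log_le_log (by exact_mod_cast h0) (by exact_mod_cast hv)
    have h3 : 2 * A * Real.log v ≤ 2 * A * (3 * L) :=
      mul_le_mul_of_nonneg_left (by linarith) (by positivity)
    nlinarith

lemma chr_block (q : ℕ) [NeZero q] (χ : DirichletCharacter ℂ q) (C : ℝ)
    (hCHR : ∀ (N N' : ℕ) (t : ℝ), 1 ≤ N → N ≤ N' → N' ≤ 2 * N → 1 ≤ |t| →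
      ‖∑ n ∈ Finset.Ioc N N', χ (n : ZMod q) * nt t n‖ ≤
        q * (C * (√|t| + N / √|t|) * (1 + Real.log N)))
    (M u v : ℕ) (τ : ℝ) (hM : 1 ≤ M) (hu : M ≤ u + 1) (hv : v ≤ 2 * M) (hτ : 1 ≤ |τ|) :
    ‖∑ n ∈ Finset.Ioc u v, χ (n : ZMod q) * nt τ n‖ ≤
      1 + 2 * (q * (C * (√|τ| + M / √|τ|) * (1 + Real.log M))) := by
  set E := q * (C * (√|τ| + M / √|τ|) * (1 + Real.log M)) with hE
  have hE0 : 0 ≤ E := (norm_nonneg _).trans (hCHR M M τ hM le_rfl (by omega) hτ)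
  rcases Nat.lt_or_ge u v with huv | huv
  swap
  · rw [Finset.Ioc_eq_empty (by omega)]
    simp only [Finset.sum_empty, norm_zero]
    positivity
  rcases Nat.lt_or_ge u M with h | h
  · -- u + 1 = M
    have hMu : M = u + 1 := by omega
    have h1 : ∑ n ∈ Finset.Ioc u v, χ (n : ZMod q) * nt τ n =
        χ (M : ZMod q) * nt τ M + ∑ n ∈ Finset.Ioc M v, χ (n : ZMod q) * nt τ n := by
      have : Finset.Ioc u v = insert M (Finset.Ioc M v) := by
        ext n; simp only [Finset.mem_Ioc, Finset.mem_insert]; omega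
      rw [this, Finset.sum_insert (by simp)]
    rw [h1]
    refine (norm_add_le _ _).trans ?_
    have h2 : ‖χ (M : ZMod q) * nt τ M‖ ≤ 1 := by
      rw [norm_mul]
      have := mul_le_mul (DirichletCharacter.norm_le_one χ (M : ZMod q)) (norm_nt_le τ M)
        (norm_nonneg _) zero_le_one
      linarith
    have h3 := hCHR M v τ hM (by omega) hv hτ
    linarith
  · have h1 : ∑ n ∈ Finset.Ioc u v, χ (n : ZMod q) * nt τ n =
        ∑ n ∈ Finset.Ioc M v, χ (n : ZMod q) * nt τ n - ∑ n ∈ Finset.Ioc M u, χ (n : ZMod q) * nt τ n := by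
      rw [← Finset.sum_Ioc_consecutive _ h huv.le]; ring
    rw [h1]
    refine (norm_sub_le _ _).trans ?_
    have h2 := hCHR M v τ hM (by omega) hv hτ
    have h3 := hCHR M u τ hM h (by omega) hτ
    linarith

lemma realFin (X L C G q S V : ℝ) (K B : ℕ) (hL : 1 ≤ L) (hq0 : 0 ≤ q) (hq : q ≤ L ^ B)
    (hG : 2916 * C ^ 2 * G ≤ L) (hV : 0 ≤ V) (h : S ^ 2 * V ≤ G * (X ^ 2 / L ^ (K + 2 * B + 5))) :
    (54 * q * C * L ^ 2 * S) ^ 2 * V ≤ X ^ 2 / L ^ K := by
  have hL0 : 0 < L := by linarith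
  have hq2 : q ^ 2 ≤ (L ^ B) ^ 2 := pow_le_pow_left₀ hq0 hq 2
  have hSV : 0 ≤ S ^ 2 * V := by positivity
  calc (54 * q * C * L ^ 2 * S) ^ 2 * V = 2916 * C ^ 2 * L ^ 4 * (q ^ 2 * (S ^ 2 * V)) := by ring
    _ ≤ 2916 * C ^ 2 * L ^ 4 * ((L ^ B) ^ 2 * (G * (X ^ 2 / L ^ (K + 2 * B + 5)))) := by
        apply mul_le_mul_of_nonneg_left _ (by positivity)
        exact mul_le_mul hq2 h hSV (by positivity)
    _ = (2916 * C ^ 2 * G) * (X ^ 2 / L ^ K * (1 / L)) := by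
        have e : L ^ (K + 2 * B + 5) = L ^ K * (L ^ B) ^ 2 * L ^ 4 * L := by ring
        rw [e]
        field_simp
    _ ≤ L * (X ^ 2 / L ^ K * (1 / L)) := by
        apply mul_le_mul_of_nonneg_right hG (by positivity)
    _ = X ^ 2 / L ^ K := by field_simp

/-! ### goodness of one factor -/

lemma goodness
    (B K C₀' : ℕ) (C : ℝ) (hC : 1 ≤ C) (X : ℕ) (q : ℕ) [NeZero q] (χ : DirichletCharacter ℂ q)
    (hPW : ∀ M u v : ℕ, (X : ℝ) ≤ (M : ℝ) ^ 20 → M ≤ u + 1 →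
      v ≤ 2 * M → M ≤ X ^ 2 → ∀ τ : ℝ, Real.log X ^ C₀' ≤ |τ| → |τ| ≤ X →
      ‖∑ n ∈ Finset.Ioc u v, (χ (n : ZMod q) * ((ArithmeticFunction.moebius n : ℤ) : ℂ)) * nt τ n‖ ≤
        M / Real.log X ^ (K + 1) ∧
      ‖∑ n ∈ Finset.Ioc u v, χ (n : ZMod q) * nt τ n‖ ≤ M / Real.log X ^ (K + 1) ∧
      ‖∑ n ∈ Finset.Ioc u v, (χ (n : ZMod q) * (Real.log n : ℂ)) * nt τ n‖ ≤ M / Real.log X ^ (K + 1))
    (hCHR : ∀ (N N' : ℕ) (t : ℝ), 1 ≤ N → N ≤ N' → N' ≤ 2 * N → 1 ≤ |t| →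
      ‖∑ n ∈ Finset.Ioc N N', χ (n : ZMod q) * nt t n‖ ≤
        q * (C * (√|t| + N / √|t|) * (1 + Real.log N)))
    (hFD : ∀ (M u v : ℕ) (τ : ℝ), 1 ≤ M → M ≤ u + 1 → v ≤ 2 * M → 1 ≤ |τ| →
      ‖∑ n ∈ Finset.Ioc u v, χ (n : ZMod q) * nt τ n‖ ≤ C * (M / |τ| + q * |τ|))
    (hq : (q : ℝ) ≤ Real.log X ^ B)
    (hL : 2916 * C ^ 2 * 136048922 ≤ Real.log X)
    (z : ℕ) (hz : (z : ℝ) ^ 3 ≤ 512 * X)
    (T0 : ℝ) (hT0 : Real.log X ^ C₀' ≤ T0) (hT0' : Real.log X ^ (K + 2 * B + 5) ≤ T0)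
    (Y : ℝ) (hY : 1 ≤ Y) (hYX : Y ^ 3 = X)
    (hT : T0 * Real.log X ^ (K + 2 * B + 5) ≤ Y ^ 2)
    (r : ℕ) (hr : r ≤ 6) (F : Fin r → ℕ → ℂ) (hF : ∀ i, Ty (fun n => χ (n : ZMod q)) z (F i))
    (M : Fin r → ℕ) (hM1 : ∀ i, 1 ≤ M i) (hM2 : X ≤ ∏ i, M i) (hM3 : ∏ i, M i ≤ 18 ^ r * X) :
    ∃ i, Good X T0 (2 * T0) K (F i) (M i) := by
  set L := Real.log X with hLdef
  set P := K + 2 * B + 5 with hP
  have hC2 : (1 : ℝ) ≤ C ^ 2 := one_le_pow₀ hC
  have hLbig : (396718656552 : ℝ) ≤ L := by nlinarith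
  have hL1 : (1 : ℝ) ≤ L := by linarith
  have hL0 : 0 < L := by linarith
  have hX0 : 0 < (X : ℝ) := by rw [← hYX]; positivity
  have hXL : L ≤ X := by
    have := Real.log_le_sub_one_of_pos hX0
    linarith
  have hXbig : (396718656552 : ℝ) ≤ X := by linarith
  have hXnat : 512 ≤ X := by
    have : (512 : ℝ) ≤ X := by linarith
    exact_mod_cast this
  have hLP : (1 : ℝ) ≤ L ^ P := one_le_pow₀ hL1
  have hT01 : 1 ≤ T0 := hLP.trans hT0'
  have hT0pos : 0 < T0 := by linarith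
  have hTY : T0 ≤ Y ^ 2 := by nlinarith
  have hTX : 2 * T0 ≤ X := by
    have h1 : 2 ≤ L ^ P := by
      have : L ≤ L ^ P := le_self_pow₀ hL1 (by omega)
      linarith
    have h2 : T0 * 2 ≤ Y ^ 2 := by
      have := mul_le_mul_of_nonneg_left h1 hT0pos.le
      linarith
    have h3 : Y ^ 2 ≤ Y ^ 3 := pow_le_pow_right₀ hY (by norm_num)
    linarith
  by_contra hcon
  push Not at hcon
  -- step (a)
  have ha : ∀ i, (X : ℝ) ≤ (M i : ℝ) ^ 20 → ¬ ((M i : ℝ) ^ 3 ≤ 512 * X) := by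
    intro i h20 h3
    apply hcon i
    have hMi : (1 : ℝ) ≤ M i := by exact_mod_cast hM1 i
    have hM8 : (M i : ℝ) ≤ 8 * Y := by
      by_contra hc
      push Not at hc
      have := pow_lt_pow_left₀ hc (by positivity) (n := 3) (by norm_num)
      have e : (8 * Y) ^ 3 = 512 * X := by rw [← hYX]; ring
      linarith
    have hMX : M i ≤ X ^ 2 := by
      have h1 : (M i : ℝ) ≤ (M i : ℝ) ^ 3 := le_self_pow₀ hMi (by norm_num)
      have h2 : (M i : ℝ) ≤ 512 * X := h1.trans h3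
      have h3 : M i ≤ 512 * X := by exact_mod_cast h2
      calc M i ≤ 512 * X := h3
        _ ≤ X * X := Nat.mul_le_mul_right _ hXnat
        _ = X ^ 2 := by ring
    refine good_of X T0 (2 * T0) K (F i) (M i) (M i / L ^ (K + 1)) (by linarith) ?_ ?_
    · intro u v hu hv τ h1 h2
      rcases hF i with h | h | h
      · -- gmu
        have e : ∑ n ∈ Ioc u v, F i n * nt τ n = ∑ n ∈ Ioc u (min v z),
            (χ (n : ZMod q) * ((ArithmeticFunction.moebius n : ℤ) : ℂ)) * nt τ n := by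
          rw [h]
          symm
          apply Finset.sum_subset_zero_on_sdiff
          · intro n hn
            simp only [Finset.mem_Ioc] at hn ⊢
            exact ⟨hn.1, hn.2.trans (min_le_left _ _)⟩
          · intro n hn
            simp only [Finset.mem_sdiff, Finset.mem_Ioc] at hn
            have : ¬ n ≤ z := by
              intro hc
              exact hn.2 ⟨hn.1.1, le_min hn.1.2 hc⟩
            simp [gmu, this]
          · intro n hn
            simp only [Finset.mem_Ioc] at hn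
            have : n ≤ z := hn.2.trans (min_le_right _ _)
            simp [gmu, this]
        rw [e]
        exact (hPW (M i) u (min v z) h20 hu ((min_le_left _ _).trans hv) hMX τ (hT0.trans h1)
          (h2.trans hTX)).1
      · rw [h]
        exact (hPW (M i) u v h20 hu hv hMX τ (hT0.trans h1) (h2.trans hTX)).2.1
      · rw [h]
        exact (hPW (M i) u v h20 hu hv hMX τ (hT0.trans h1) (h2.trans hTX)).2.2
    · exact realA X (M i) Y T0 L K (by linarith) hYX hY (by linarith) hM8 (by linarith) hTY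
  -- step (b)
  have hb : ∀ i, F i = gmu (fun n => χ (n : ZMod q)) z → M i ≤ z := by
    intro i hi
    by_contra hc
    push Not at hc
    apply hcon i
    refine good_of X T0 (2 * T0) K (F i) (M i) 0 (by linarith) ?_ ?_
    · intro u v hu hv τ h1 h2
      rw [Finset.sum_eq_zero]
      · simp
      · intro n hn
        simp only [Finset.mem_Ioc] at hn
        have : ¬ n ≤ z := by omega
        rw [hi]
        simp [gmu, this]
    · have : 0 ≤ (X : ℝ) ^ 2 / L ^ K := by positivity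
      simpa using this
  -- step (c): one factor is long
  have hc : ∃ i, ¬ ((M i : ℝ) ^ 3 ≤ 512 * X) := by
    by_contra hc
    push Not at hc
    have h1 : ∀ i, (M i : ℝ) ^ 20 ≤ X := by
      intro i
      by_contra h2
      push Not at h2
      exact ha i h2.le (hc i)
    have h2 : (∏ i, (M i : ℝ)) ^ 20 ≤ (X : ℝ) ^ r := by
      rw [← Finset.prod_pow]
      calc ∏ i, (M i : ℝ) ^ 20 ≤ ∏ _i : Fin r, (X : ℝ) :=
            Finset.prod_le_prod (fun i _ => by positivity) (fun i _ => h1 i)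
        _ = (X : ℝ) ^ r := by simp
    have h3 : (X : ℝ) ≤ ∏ i, (M i : ℝ) := by exact_mod_cast hM2
    have h4 : (X : ℝ) ^ 20 ≤ (X : ℝ) ^ r := (pow_le_pow_left₀ hX0.le h3 20).trans h2
    have h5 : (X : ℝ) ^ r < (X : ℝ) ^ 20 := pow_lt_pow_right₀ (by linarith) (by omega)
    linarith
  obtain ⟨i, hi⟩ := hc
  have hFi : F i = (fun n : ℕ => χ (n : ZMod q)) ∨
      F i = fun n : ℕ => χ (n : ZMod q) * (Real.log n : ℂ) := by
    rcases hF i with h | h
    · exfalso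
      have h1 : (M i : ℝ) ≤ z := by exact_mod_cast hb i h
      exact hi ((pow_le_pow_left₀ (by positivity) h1 3).trans hz)
    · exact h
  have hMi : (1 : ℝ) ≤ M i := by exact_mod_cast hM1 i
  have hM8 : 8 * Y ≤ (M i : ℝ) := by
    by_contra hc
    push Not at hc
    apply hi
    have := pow_le_pow_left₀ (by positivity) hc.le 3
    have e : (8 * Y) ^ 3 = 512 * X := by rw [← hYX]; ring
    linarith
  have hMX : (M i : ℝ) ≤ 18 ^ 6 * X := by
    have h1 : M i ≤ ∏ j, M j := Finset.single_le_prod' (f := M) (fun j _ => hM1 j) (Finset.mem_univ i)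
    have h2 : M i ≤ 18 ^ 6 * X := h1.trans (hM3.trans (Nat.mul_le_mul_right _
      (Nat.pow_le_pow_right (by norm_num) hr)))
    exact_mod_cast h2
  have hlog2 : Real.log (2 * M i) ≤ 2 * L := by
    have h1 : Real.log (2 * M i) ≤ Real.log (2 * 18 ^ 6 * X) :=
      Real.log_le_log (by linarith) (by linarith)
    have h1' : Real.log (2 * 18 ^ 6 * (X : ℝ)) = Real.log (2 * 18 ^ 6) + Real.log X :=
      Real.log_mul (by norm_num) (by positivity)
    rw [h1'] at h1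
    have h2 : Real.log (2 * 18 ^ 6) ≤ 2 * 18 ^ 6 - 1 := Real.log_le_sub_one_of_pos (by norm_num)
    have h3 : (2 * 18 ^ 6 - 1 : ℝ) ≤ L := by linarith
    linarith
  have hlogM : Real.log (M i) ≤ Real.log (2 * M i) := Real.log_le_log (by linarith) (by linarith)
  have hlogM0 : 0 ≤ Real.log (M i) := Real.log_nonneg hMi
  have hlog3 : 1 + Real.log (2 * M i) ≤ 3 * L := by linarith
  have hq1 : (1 : ℝ) ≤ q := by exact_mod_cast NeZero.one_le
  apply hcon i
  have hs1 : 1 ≤ Real.sqrt (2 * T0) := by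
    rw [Real.one_le_sqrt]; linarith
  have hV0 : 0 ≤ (2 * T0 + (X : ℝ) / M i) * (X / M i) := by positivity
  rcases le_total ((M i : ℝ) * L ^ P) X with hcase | hcase
  · -- CHR
    set S := Real.sqrt (2 * T0) + M i / Real.sqrt T0 with hS
    have hS1 : 1 ≤ S := by
      have : 0 ≤ (M i : ℝ) / Real.sqrt T0 := by positivity
      linarith
    refine good_of X T0 (2 * T0) K (F i) (M i) (54 * q * C * L ^ 2 * S) (by linarith) ?_ ?_
    · intro u v hu hv τ h1 h2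
      have hA : ∀ u v, M i ≤ u + 1 → v ≤ 2 * M i →
          ‖∑ n ∈ Ioc u v, χ (n : ZMod q) * nt τ n‖ ≤ 9 * q * C * L * S := by
        intro u v hu hv
        refine (chr_block q χ C hCHR (M i) u v τ (hM1 i) hu hv (hT01.trans h1)).trans ?_
        have t1 : √|τ| + M i / √|τ| ≤ S := by
          apply add_le_add (Real.sqrt_le_sqrt h2)
          apply div_le_div_of_nonneg_left (by positivity) (Real.sqrt_pos.mpr hT0pos)
          exact Real.sqrt_le_sqrt h1
        have t2 : C * (√|τ| + M i / √|τ|) * (1 + Real.log (M i)) ≤ C * S * (3 * L) := by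
          apply mul_le_mul _ (by linarith) (by linarith) (by positivity)
          exact mul_le_mul_of_nonneg_left t1 (by linarith)
        have t3 : q * (C * (√|τ| + M i / √|τ|) * (1 + Real.log (M i))) ≤ q * (C * S * (3 * L)) :=
          mul_le_mul_of_nonneg_left t2 (by linarith)
        have t4 : 1 ≤ q * (C * S * L) := by
          have a1 : 1 ≤ C * S := one_le_mul_of_one_le_of_one_le hC hS1
          have a2 : 1 ≤ C * S * L := one_le_mul_of_one_le_of_one_le a1 hL1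
          exact one_le_mul_of_one_le_of_one_le hq1 a2
        nlinarith
      have := block23 (fun n : ℕ => χ (n : ZMod q)) (F i) hFi (M i) (hM1 i) (9 * q * C * L * S) L τ
        (by positivity) hlog3 hA u v hu hv
      linarith
    · apply realFin X L C 10 q S _ K B hL1 (by linarith) hq (by nlinarith) hV0
      exact realC1 X (M i) Y T0 L P hL1 hYX hY hM8 hT0' hT hcase
  · set S := M i / T0 + 2 * T0 with hS
    refine good_of X T0 (2 * T0) K (F i) (M i) (54 * q * C * L ^ 2 * S) (by linarith) ?_ ?_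
    · intro u v hu hv τ h1 h2
      have hS0 : 0 ≤ S := by positivity
      have hA : ∀ u v, M i ≤ u + 1 → v ≤ 2 * M i →
          ‖∑ n ∈ Ioc u v, χ (n : ZMod q) * nt τ n‖ ≤ q * C * S := by
        intro u v hu hv
        refine (hFD (M i) u v τ (hM1 i) hu hv (hT01.trans h1)).trans ?_
        have t1 : (M i : ℝ) / |τ| ≤ q * (M i / T0) := by
          have a1 : (M i : ℝ) / |τ| ≤ M i / T0 :=
            div_le_div_of_nonneg_left (by positivity) hT0pos h1
          have a2 : 0 ≤ (M i : ℝ) / T0 := by positivity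
          nlinarith
        have t2 : q * |τ| ≤ q * (2 * T0) := mul_le_mul_of_nonneg_left h2 (by linarith)
        have t3 : (M i : ℝ) / |τ| + q * |τ| ≤ q * S := by rw [hS]; linarith
        have t4 := mul_le_mul_of_nonneg_left t3 (by linarith : 0 ≤ C)
        linarith
      have h3 := block23 (fun n : ℕ => χ (n : ZMod q)) (F i) hFi (M i) (hM1 i) (q * C * S) L τ
        (by positivity) hlog3 hA u v hu hv
      have h4 : 6 * L * (q * C * S) ≤ 54 * q * C * L ^ 2 * S := by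
        have a0 : 0 ≤ (q : ℝ) * C * S := mul_nonneg (mul_nonneg (by linarith) (by linarith)) hS0
        have a1 : 0 ≤ (6 * L * (q * C * S)) * (9 * L - 1) :=
          mul_nonneg (mul_nonneg (by linarith) a0) (by linarith)
        have a2 : (6 * L * (q * C * S)) * (9 * L - 1) = 54 * q * C * L ^ 2 * S - 6 * L * (q * C * S) := by
          ring
        linarith
      exact h3.trans h4
    · apply realFin X L C 136048922 q S _ K B hL1 (by linarith) hq hL hV0
      exact realC2 X (M i) Y T0 L P hL1 hYX hY (by linarith) hMX hT0' hT hcase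

end Pool.Agent.V5helper24.CR
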