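import Mathlib
import Pool.Agent.V5helper24.CR.DPLa

/-!
# Project CR, job DPL, part 2: the assembly `dpl`
-/

set_option autoImplicit false

namespace Pool.Agent.V5helper24.CR

open Finset Filter MeasureTheory
open Pool.Agent.Q236.CR

/-! ### the polynomial of all products -/

lemma sum_TS {r : ℕ} (F : Fin r → ℕ → ℂ) (x1 x2 : ℕ) (τ : ℝ) :
    ∑ n ∈ Ioc x1 x2, TS F x2 n * nt τ n = PD F x1 x2 τ := by
  unfold TS PD
  rw [← Finset.sum_fiberwise_of_maps_to (s := (Fintype.piFinset (fun _ : Fin r => Finset.Icc 1 x2)).filter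
    (fun v => x1 < ∏ i, v i ∧ ∏ i, v i ≤ x2)) (t := Ioc x1 x2) (g := fun v => ∏ i, v i)
    (fun v hv => by
      simp only [Finset.mem_filter] at hv
      simp only [Finset.mem_Ioc]
      exact hv.2)]
  apply Finset.sum_congr rfl
  intro n hn
  simp only [Finset.mem_Ioc] at hn
  rw [Finset.sum_mul, Finset.filter_filter]
  apply Finset.sum_congr
  · ext v
    simp only [Finset.mem_filter]
    constructor
    · rintro ⟨h1, h2⟩
      exact ⟨h1, by rw [h2]; exact hn, h2⟩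
    · rintro ⟨h1, _, h2⟩
      exact ⟨h1, h2⟩
  · intro v hv
    simp only [Finset.mem_filter] at hv
    rw [hv.2.2]

lemma cont_PD {r : ℕ} (F : Fin r → ℕ → ℂ) (x1 x2 : ℕ) : Continuous (fun τ => PD F x1 x2 τ) := by
  unfold PD
  apply continuous_finsetSum
  intro v hv
  apply Continuous.mul continuous_const
  apply cont_nt
  simp only [Finset.mem_filter] at hv
  omega

/-! ### dyadic decomposition -/

lemma dyad (f : ℝ → ℝ) (hf : Continuous f) (h0 : ∀ x, 0 ≤ f x) (a T E L : ℝ) (ha : 1 ≤ a) (haT : a ≤ T)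
    (hT : Real.log T ≤ L) (hL : 2 ≤ L) (hE : 0 ≤ E)
    (h : ∀ t, a ≤ t → t < T → ∫ x in t..(2 * t), f x ≤ E) : ∫ x in a..T, f x ≤ 2 * L * E := by
  have hex : ∃ N : ℕ, T ≤ a * 2 ^ N := by
    obtain ⟨N, hN⟩ := pow_unbounded_of_one_lt T (by norm_num : (1 : ℝ) < 2)
    refine ⟨N, ?_⟩
    have : (0 : ℝ) < 2 ^ N := by positivity
    nlinarith
  classical
  set N := Nat.find hex with hN
  have hN1 : T ≤ a * 2 ^ N := Nat.find_spec hex
  have hN2 : ∀ k, k < N → a * 2 ^ k < T := by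
    intro k hk
    have := Nat.find_min hex hk
    push Not at this
    exact this
  have hi : ∀ x y : ℝ, IntervalIntegrable f volume x y := fun x y => hf.intervalIntegrable x y
  have hind : ∀ k : ℕ, k ≤ N → ∫ x in a..(a * 2 ^ k), f x ≤ k * E := by
    intro k
    induction k with
    | zero => intro _; simp
    | succ k ih =>
      intro hk
      rw [← intervalIntegral.integral_add_adjacent_intervals (hi a (a * 2 ^ k)) (hi _ _)]
      have h1 := ih (by omega)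
      have h2 := h (a * 2 ^ k) (by
        have : (1 : ℝ) ≤ 2 ^ k := one_le_pow₀ (by norm_num)
        nlinarith) (hN2 k (by omega))
      have e : 2 * (a * 2 ^ k) = a * 2 ^ (k + 1) := by ring
      rw [e] at h2
      push_cast
      linarith
  have h1 := hind N le_rfl
  have h2 : ∫ x in a..T, f x ≤ ∫ x in a..(a * 2 ^ N), f x := by
    rw [← intervalIntegral.integral_add_adjacent_intervals (hi a T) (hi T (a * 2 ^ N))]
    have : 0 ≤ ∫ x in T..(a * 2 ^ N), f x :=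
      intervalIntegral.integral_nonneg hN1 (fun x _ => h0 x)
    linarith
  have h3 : (N : ℝ) ≤ 2 * L := by
    rcases Nat.eq_zero_or_pos N with hz | hz
    · rw [hz]; simp; linarith
    · obtain ⟨k, hk⟩ : ∃ k, N = k + 1 := ⟨N - 1, by omega⟩
      have h4 := hN2 k (by omega)
      have h5 : (2 : ℝ) ^ k ≤ T := by
        have : (0 : ℝ) < 2 ^ k := by positivity
        nlinarith
      have h6 : (k : ℝ) * Real.log 2 ≤ L := by
        have := Real.log_le_log (by positivity) h5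
        rw [Real.log_pow] at this
        linarith
      have h7 := Real.log_two_gt_d9
      have h8 : (k : ℝ) ≤ 3 / 2 * L := by
        have hk0 : (0 : ℝ) ≤ k := Nat.cast_nonneg k
        nlinarith
      rw [hk]; push_cast; linarith
  have h4 : (N : ℝ) * E ≤ 2 * L * E := mul_le_mul_of_nonneg_right h3 hE
  linarith

/-! ### one dyadic piece, one product -/

/-- the statement for one number of factors -/
def Piece (B U r Cm X₀ : ℕ) : Prop :=
  ∀ X : ℕ, X₀ ≤ X → ∀ (q : ℕ) (_ : NeZero q), (q : ℝ) ≤ Real.log X ^ B → ∀ χ : DirichletCharacter ℂ q,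
  ∀ z : ℕ, (z : ℝ) ^ 3 ≤ 512 * X → ∀ F : Fin r → ℕ → ℂ, (∀ i, Ty (fun n => χ (n : ZMod q)) z (F i)) →
  ∀ T0 : ℝ, Real.log X ^ Cm ≤ T0 → T0 * Real.log X ^ Cm ≤ (X : ℝ) ^ (2 / 3 : ℝ) →
  ∀ x1 x2 : ℕ, X ≤ x1 → x2 ≤ 9 * X →
    ∫ τ in T0..(2 * T0), ‖PD F x1 x2 τ‖ ^ 2 ≤ (X : ℝ) ^ 2 / Real.log X ^ U ∧
    ∫ τ in (-(2 * T0))..(-T0), ‖PD F x1 x2 τ‖ ^ 2 ≤ (X : ℝ) ^ 2 / Real.log X ^ U

lemma exists_log_ge (Λ : ℝ) : ∃ X₀ : ℕ, ∀ X : ℕ, X₀ ≤ X → Λ ≤ Real.log X := by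
  refine ⟨⌈Real.exp Λ⌉₊, fun X hX => ?_⟩
  have h1 : Real.exp Λ ≤ X := (Nat.le_ceil _).trans (by exact_mod_cast hX)
  have := Real.log_le_log (Real.exp_pos Λ) h1
  rwa [Real.log_exp] at this

lemma piece (hMVG : S_MVG) (hPW : S_PW) (hCHR : S_CHR) (hFD : S_FD) (B U r : ℕ) (hr1 : 1 ≤ r) (hr6 : r ≤ 6) :
    ∃ Cm X₀, Piece B U r Cm X₀ := by
  obtain ⟨K, X₁, hM⟩ := hMVG r U hr1
  obtain ⟨C₀', X₂, hP⟩ := hPW B (K + 1) 20 (by norm_num)
  obtain ⟨_, Ca, hCa, hchr⟩ := hCHR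
  obtain ⟨Cb, hCb, hfd⟩ := hFD
  set C := max Ca Cb with hC
  have hC1 : 1 ≤ C := hCa.trans (le_max_left _ _)
  obtain ⟨X₃, hX₃⟩ := exists_log_ge (2916 * C ^ 2 * 136048922)
  refine ⟨max C₀' (K + 2 * B + 5), max X₁ (max X₂ (max X₃ 1)), ?_⟩
  intro X hX q hqz hq χ z hz F hF T0 hT0 hT x1 x2 hx1 hx2
  have hX1 : X₁ ≤ X := (le_max_left _ _).trans hX
  have hX2 : X₂ ≤ X := ((le_max_left _ _).trans (le_max_right _ _)).trans hX
  have hX3 : X₃ ≤ X := ((le_max_left _ _).trans ((le_max_right _ _).trans (le_max_right _ _))).trans hX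
  have hX4 : 1 ≤ X := ((le_max_right _ _).trans ((le_max_right _ _).trans (le_max_right _ _))).trans hX
  have hLbig := hX₃ X hX3
  have hC2 : (1 : ℝ) ≤ C ^ 2 := one_le_pow₀ hC1
  have hL1 : 1 ≤ Real.log X := by nlinarith
  have hX1' : (1 : ℝ) ≤ X := by exact_mod_cast hX4
  set Y : ℝ := (X : ℝ) ^ (1 / 3 : ℝ) with hY
  have hY1 : 1 ≤ Y := Real.one_le_rpow hX1' (by norm_num)
  have hY3 : Y ^ 3 = X := by
    rw [hY, ← Real.rpow_natCast, ← Real.rpow_mul (by positivity)]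
    norm_num
  have hY2 : Y ^ 2 = (X : ℝ) ^ (2 / 3 : ℝ) := by
    rw [hY, ← Real.rpow_natCast, ← Real.rpow_mul (by positivity)]
    norm_num
  have hmono : ∀ k, k ≤ max C₀' (K + 2 * B + 5) → Real.log X ^ k ≤ Real.log X ^ (max C₀' (K + 2 * B + 5)) :=
    fun k hk => pow_le_pow_right₀ hL1 hk
  have hT0a : Real.log X ^ C₀' ≤ T0 := (hmono _ (le_max_left _ _)).trans hT0
  have hT0b : Real.log X ^ (K + 2 * B + 5) ≤ T0 := (hmono _ (le_max_right _ _)).trans hT0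
  have hT01 : 1 ≤ T0 := (one_le_pow₀ hL1).trans hT0a
  have hTb : T0 * Real.log X ^ (K + 2 * B + 5) ≤ Y ^ 2 := by
    rw [hY2]
    exact (mul_le_mul_of_nonneg_left (hmono _ (le_max_right _ _)) (by linarith)).trans hT
  have hg : ∀ n : ℕ, ‖(fun n : ℕ => χ (n : ZMod q)) n‖ ≤ 1 := fun n =>
    DirichletCharacter.norm_le_one χ (n : ZMod q)
  have hTX : 2 * T0 ≤ X := by
    have h1 : 2 ≤ Real.log X ^ (K + 2 * B + 5) := by
      have : Real.log X ≤ Real.log X ^ (K + 2 * B + 5) := le_self_pow₀ hL1 (by omega)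
      nlinarith
    have h2 : T0 * 2 ≤ Y ^ 2 := by
      have := mul_le_mul_of_nonneg_left h1 (by linarith : 0 ≤ T0)
      linarith
    have h3 : Y ^ 2 ≤ Y ^ 3 := pow_le_pow_right₀ hY1 (by norm_num)
    linarith
  refine hM X hX1 T0 (2 * T0) (by linarith) (by linarith) hTX F
    (fun i n => norm_Ty _ hg z (F i) (hF i) n) ?_ x1 x2 hx1 hx2
  intro M hM1 hM2 hM3
  refine goodness B K C₀' C hC1 X q χ ?_ ?_ ?_ hq hLbig z hz T0 hT0a hT0b Y hY1 hY3 hTb r hr6 F hF M hM1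
    hM2 hM3
  · intro M u v h1 h2 h3 h4 τ h5 h6
    exact hP X hX2 q hqz hq χ M u v h1 h2 h3 h4 τ h5 h6
  · intro N N' t h1 h2 h3 h4
    refine (hchr q hqz χ N N' t h1 h2 h3 h4).trans ?_
    apply mul_le_mul_of_nonneg_left _ (Nat.cast_nonneg q)
    apply mul_le_mul_of_nonneg_right _ (by
      have := Real.log_natCast_nonneg N
      linarith)
    exact mul_le_mul_of_nonneg_right (le_max_left _ _) (by positivity)
  · intro M u v τ h1 h2 h3 h4
    refine (hfd q hqz χ M u v τ h1 h2 h3 h4).1.trans ?_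
    exact mul_le_mul_of_nonneg_right (le_max_right _ _) (by positivity)

/-- uniform version -/
lemma piece_unif (hMVG : S_MVG) (hPW : S_PW) (hCHR : S_CHR) (hFD : S_FD) (B U : ℕ) :
    ∃ Cm X₀, ∀ r, 1 ≤ r → r ≤ 6 → Piece B U r Cm X₀ := by
  have h : ∀ r : ℕ, ∃ p : ℕ × ℕ, 1 ≤ r → r ≤ 6 → Piece B U r p.1 p.2 := by
    intro r
    by_cases hr : 1 ≤ r ∧ r ≤ 6
    · obtain ⟨Cm, X₀, h⟩ := piece hMVG hPW hCHR hFD B U r hr.1 hr.2
      exact ⟨(Cm, X₀), fun _ _ => h⟩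
    · exact ⟨(0, 0), fun h1 h2 => absurd ⟨h1, h2⟩ hr⟩
  choose p hp using h
  refine ⟨∑ r ∈ Finset.range 7, (p r).1, (∑ r ∈ Finset.range 7, (p r).2) + 3, ?_⟩
  intro r hr1 hr6 X hX q hqz hq χ z hz F hF T0 hT0 hT x1 x2 hx1 hx2
  have h1 : (p r).1 ≤ ∑ r ∈ Finset.range 7, (p r).1 :=
    Finset.single_le_sum (f := fun r => (p r).1) (fun _ _ => Nat.zero_le _) (Finset.mem_range.mpr (by omega))
  have h2 : (p r).2 ≤ ∑ r ∈ Finset.range 7, (p r).2 :=
    Finset.single_le_sum (f := fun r => (p r).2) (fun _ _ => Nat.zero_le _) (Finset.mem_range.mpr (by omega))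
  have hX3 : 3 ≤ X := by omega
  have hL1 : 1 ≤ Real.log X := by
    have h3 : (3 : ℝ) ≤ X := by exact_mod_cast hX3
    have h4 := one_le_log3 0
    have h5 := Real.log_le_log (by norm_num) h3
    simp only [Nat.cast_zero, zero_add] at h4
    linarith
  have hmono := pow_le_pow_right₀ hL1 h1
  have hT01 : 1 ≤ T0 := (one_le_pow₀ hL1).trans hT0
  exact hp r hr1 hr6 X (by omega) q hqz hq χ z hz F hF T0 (hmono.trans hT0)
    ((mul_le_mul_of_nonneg_left hmono (by linarith)).trans hT) x1 x2 hx1 hx2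

/-! ### combination of three products -/

lemma combine (rr : ℕ → ℕ) (F : ∀ j, Fin (rr j) → ℕ → ℂ) (c : ℕ → ℂ) (x1 x2 : ℕ)
    (hc : ∀ n ∈ Ioc x1 x2, c n = ∑ j ∈ Finset.range 3, (-1 : ℂ) ^ j * ((3).choose (j + 1) : ℂ) * TS (F j) x2 n)
    (τ : ℝ) : ‖∑ n ∈ Ioc x1 x2, c n * nt τ n‖ ^ 2 ≤
      27 * (‖PD (F 0) x1 x2 τ‖ ^ 2 + ‖PD (F 1) x1 x2 τ‖ ^ 2 + ‖PD (F 2) x1 x2 τ‖ ^ 2) := by
  have e : ∑ n ∈ Ioc x1 x2, c n * nt τ n = 3 * PD (F 0) x1 x2 τ - 3 * PD (F 1) x1 x2 τ + PD (F 2) x1 x2 τ := by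
    rw [← sum_TS, ← sum_TS, ← sum_TS, Finset.mul_sum, Finset.mul_sum, ← Finset.sum_sub_distrib,
      ← Finset.sum_add_distrib]
    apply Finset.sum_congr rfl
    intro n hn
    rw [hc n hn]
    simp only [Finset.sum_range_succ, Finset.sum_range_zero]
    norm_num [Nat.choose]
    ring
  rw [e]
  set a := ‖PD (F 0) x1 x2 τ‖
  set b := ‖PD (F 1) x1 x2 τ‖
  set d := ‖PD (F 2) x1 x2 τ‖
  have h1 : ‖3 * PD (F 0) x1 x2 τ - 3 * PD (F 1) x1 x2 τ + PD (F 2) x1 x2 τ‖ ≤ 3 * a + 3 * b + d := by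
    refine (norm_add_le _ _).trans ?_
    have h2 := norm_sub_le (3 * PD (F 0) x1 x2 τ) (3 * PD (F 1) x1 x2 τ)
    rw [norm_mul, norm_mul] at h2
    have h3 : ‖(3 : ℂ)‖ = 3 := by norm_num
    rw [h3] at h2
    linarith
  have ha : 0 ≤ a := norm_nonneg _
  have hb : 0 ≤ b := norm_nonneg _
  have hd : 0 ≤ d := norm_nonneg _
  have h2 := pow_le_pow_left₀ (norm_nonneg _) h1 2
  refine h2.trans ?_
  nlinarith [sq_nonneg (a - b), sq_nonneg (a - d), sq_nonneg (b - d)]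

lemma combine_int (rr : ℕ → ℕ) (F : ∀ j, Fin (rr j) → ℕ → ℂ) (c : ℕ → ℂ) (x1 x2 : ℕ)
    (hc : ∀ n ∈ Ioc x1 x2, c n = ∑ j ∈ Finset.range 3, (-1 : ℂ) ^ j * ((3).choose (j + 1) : ℂ) * TS (F j) x2 n)
    (u v E : ℝ) (huv : u ≤ v)
    (h : ∀ j, j < 3 → ∫ τ in u..v, ‖PD (F j) x1 x2 τ‖ ^ 2 ≤ E) :
    ∫ τ in u..v, ‖∑ n ∈ Ioc x1 x2, c n * nt τ n‖ ^ 2 ≤ 81 * E := by
  have hcs : Continuous (fun τ => ∑ n ∈ Ioc x1 x2, c n * nt τ n) := by
    apply continuous_finsetSum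
    intro n hn
    apply Continuous.mul continuous_const
    apply cont_nt
    simp only [Finset.mem_Ioc] at hn
    omega
  have hP : ∀ j, Continuous (fun τ => ‖PD (F j) x1 x2 τ‖ ^ 2) := fun j => (cont_PD (F j) x1 x2).norm.pow 2
  have h1 : ∫ τ in u..v, ‖∑ n ∈ Ioc x1 x2, c n * nt τ n‖ ^ 2 ≤
      ∫ τ in u..v, 27 * (‖PD (F 0) x1 x2 τ‖ ^ 2 + ‖PD (F 1) x1 x2 τ‖ ^ 2 + ‖PD (F 2) x1 x2 τ‖ ^ 2) := by
    apply intervalIntegral.integral_mono_on huv
    · exact (hcs.norm.pow 2).intervalIntegrable _ _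
    · exact (continuous_const.mul (((hP 0).add (hP 1)).add (hP 2))).intervalIntegrable _ _
    · intro τ _
      exact combine rr F c x1 x2 hc τ
  refine h1.trans ?_
  have i0 : IntervalIntegrable (fun τ => ‖PD (F 0) x1 x2 τ‖ ^ 2) volume u v := (hP 0).intervalIntegrable _ _
  have i1 : IntervalIntegrable (fun τ => ‖PD (F 1) x1 x2 τ‖ ^ 2) volume u v := (hP 1).intervalIntegrable _ _
  have i2 : IntervalIntegrable (fun τ => ‖PD (F 2) x1 x2 τ‖ ^ 2) volume u v := (hP 2).intervalIntegrable _ _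
  have i01 : IntervalIntegrable (fun τ => ‖PD (F 0) x1 x2 τ‖ ^ 2 + ‖PD (F 1) x1 x2 τ‖ ^ 2) volume u v :=
    i0.add i1
  rw [intervalIntegral.integral_const_mul, intervalIntegral.integral_add i01 i2,
    intervalIntegral.integral_add i0 i1]
  have a0 := h 0 (by norm_num)
  have a1 := h 1 (by norm_num)
  have a2 := h 2 (by norm_num)
  linarith

/-- from three products to `c`, on the whole range -/
lemma total (B U Cm X₀ : ℕ) (hpc : ∀ r, 1 ≤ r → r ≤ 6 → Piece B (U + 2) r Cm X₀)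
    (X : ℕ) (hX : X₀ ≤ X) (hL : 162 ≤ Real.log X) (q : ℕ) (hqz : NeZero q) (hq : (q : ℝ) ≤ Real.log X ^ B)
    (χ : DirichletCharacter ℂ q) (z : ℕ) (hz : (z : ℝ) ^ 3 ≤ 512 * X) (C₀ : ℕ) (hC₀ : Cm ≤ C₀) (T : ℝ)
    (hT1 : T * Real.log X ^ Cm ≤ (X : ℝ) ^ (2 / 3 : ℝ)) (hT2 : Real.log X ^ C₀ ≤ T)
    (x1 x2 : ℕ) (hx1 : X ≤ x1) (hx2 : x2 ≤ 9 * X)
    (rr : ℕ → ℕ) (hrr : ∀ j, j < 3 → 1 ≤ rr j ∧ rr j ≤ 6)
    (F : ∀ j, Fin (rr j) → ℕ → ℂ) (hF : ∀ j i, Ty (fun n => χ (n : ZMod q)) z (F j i)) (c : ℕ → ℂ)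
    (hc : ∀ n ∈ Ioc x1 x2, c n = ∑ j ∈ Finset.range 3, (-1 : ℂ) ^ j * ((3).choose (j + 1) : ℂ) * TS (F j) x2 n) :
    ∫ τ in (Real.log X ^ C₀)..T, ‖∑ n ∈ Finset.Ioc x1 x2, c n * nt τ n‖ ^ 2 ≤ (X : ℝ) ^ 2 / Real.log X ^ U ∧
    ∫ τ in (-T)..(-Real.log X ^ C₀), ‖∑ n ∈ Finset.Ioc x1 x2, c n * nt τ n‖ ^ 2 ≤ (X : ℝ) ^ 2 / Real.log X ^ U := by
  set L := Real.log X with hLdef
  have hL1 : 1 ≤ L := by linarith
  have hL0 : 0 < L := by linarith
  have hX0 : (0 : ℝ) < X := by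
    rcases Nat.eq_zero_or_pos X with h | h
    · exfalso
      rw [hLdef, h] at hL; simp at hL; linarith
    · exact_mod_cast h
  have hX1 : (1 : ℝ) ≤ X := by exact_mod_cast (by exact_mod_cast hX0 : 0 < X)
  have hcs : Continuous (fun τ => ∑ n ∈ Ioc x1 x2, c n * nt τ n) := by
    apply continuous_finsetSum
    intro n hn
    apply Continuous.mul continuous_const
    apply cont_nt
    simp only [Finset.mem_Ioc] at hn
    omega
  have ha : 1 ≤ L ^ C₀ := one_le_pow₀ hL1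
  have hTX : Real.log T ≤ L := by
    have hT0 : 0 < T := by linarith
    have h1 : T ≤ X := by
      have h2 : (1 : ℝ) ≤ L ^ Cm := one_le_pow₀ hL1
      have h3 : (X : ℝ) ^ (2 / 3 : ℝ) ≤ (X : ℝ) ^ (1 : ℝ) :=
        Real.rpow_le_rpow_of_exponent_le hX1 (by norm_num)
      rw [Real.rpow_one] at h3
      nlinarith
    exact Real.log_le_log hT0 h1
  set E := (X : ℝ) ^ 2 / L ^ (U + 2) with hE
  have hE0 : 0 ≤ E := by positivity
  have hfin : 2 * L * (81 * E) ≤ (X : ℝ) ^ 2 / L ^ U := by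
    have e : 2 * L * (81 * E) = 162 * ((X : ℝ) ^ 2 / L ^ U * (1 / L)) := by
      rw [hE, pow_add]; field_simp; norm_num
    rw [e]
    calc 162 * ((X : ℝ) ^ 2 / L ^ U * (1 / L)) ≤ L * ((X : ℝ) ^ 2 / L ^ U * (1 / L)) :=
          mul_le_mul_of_nonneg_right hL (by positivity)
      _ = (X : ℝ) ^ 2 / L ^ U := by field_simp
  have hmono : L ^ Cm ≤ L ^ C₀ := pow_le_pow_right₀ hL1 hC₀
  have hpiece : ∀ t, L ^ C₀ ≤ t → t < T → ∀ j, j < 3 →
      (∫ τ in t..(2 * t), ‖PD (F j) x1 x2 τ‖ ^ 2 ≤ E ∧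
       ∫ τ in (-(2 * t))..(-t), ‖PD (F j) x1 x2 τ‖ ^ 2 ≤ E) := by
    intro t ht1 ht2 j hj
    refine hpc (rr j) (hrr j hj).1 (hrr j hj).2 X hX q hqz hq χ z hz (F j) (hF j) t
      (hmono.trans ht1) ?_ x1 x2 hx1 hx2
    refine le_trans (mul_le_mul_of_nonneg_right ht2.le (by positivity)) hT1
  constructor
  · refine (dyad (fun τ => ‖∑ n ∈ Finset.Ioc x1 x2, c n * nt τ n‖ ^ 2) (hcs.norm.pow 2)
      (fun x => by positivity) (L ^ C₀) T (81 * E) L ha hT2 hTX (by linarith) (by positivity) ?_).trans hfin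
    intro t ht1 ht2
    exact combine_int rr F c x1 x2 hc t (2 * t) E (by linarith) (fun j hj => (hpiece t ht1 ht2 j hj).1)
  · rw [← intervalIntegral.integral_comp_neg (f := fun τ => ‖∑ n ∈ Finset.Ioc x1 x2, c n * nt τ n‖ ^ 2)]
    refine (dyad (fun τ => ‖∑ n ∈ Finset.Ioc x1 x2, c n * nt (-τ) n‖ ^ 2)
      ((hcs.comp continuous_neg).norm.pow 2)
      (fun x => by positivity) (L ^ C₀) T (81 * E) L ha hT2 hTX (by linarith) (by positivity) ?_).trans hfin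
    intro t ht1 ht2
    rw [intervalIntegral.integral_comp_neg (f := fun τ => ‖∑ n ∈ Finset.Ioc x1 x2, c n * nt τ n‖ ^ 2)]
    exact combine_int rr F c x1 x2 hc (-(2 * t)) (-t) E (by linarith)
      (fun j hj => (hpiece t ht1 ht2 j hj).2)

/-- Heath-Brown's identity for `k = 3` (the general statement `S_HB` fails for `k = 0`) -/
def S_HB3 : Prop := ∀ g : ℕ → ℂ, (∀ m n, g (m * n) = g m * g n) → g 1 = 1 → ∀ z X n : ℕ, 1 ≤ n → n ≤ X →
  n ≤ z ^ 3 →
  (g n * (ArithmeticFunction.vonMangoldt n : ℂ) =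
    ∑ j ∈ Finset.range 3, (-1 : ℂ) ^ j * ((3).choose (j + 1) : ℂ) * TS (HBL g z j) X n) ∧
  (g n * ((ArithmeticFunction.moebius n : ℤ) : ℂ) =
    ∑ j ∈ Finset.range 3, (-1 : ℂ) ^ j * ((3).choose (j + 1) : ℂ) * TS (HBM g z j) X n)

/-- **DPL**, from the case `k = 3` of Heath-Brown's identity -/
theorem dpl3 : S_HB3 → S_MVG → S_PW → S_CHR → S_FD → S_DPL := by
  intro hHB hMVG hPW hCHR hFD B U
  obtain ⟨Cm, X₁, hpc⟩ := piece_unif hMVG hPW hCHR hFD B (U + 2)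
  obtain ⟨X₂, hX₂⟩ := exists_log_ge 162
  refine ⟨Cm, fun C₀ hC₀ => ⟨Cm, max X₁ (max X₂ 1), ?_⟩⟩
  intro X hX q hqz hq χ T hT1 hT2 x1 x2 hx1 hx2 c hc
  have hX1 : X₁ ≤ X := (le_max_left _ _).trans hX
  have hX2 : X₂ ≤ X := ((le_max_left _ _).trans (le_max_right _ _)).trans hX
  have hX3 : 1 ≤ X := ((le_max_right _ _).trans (le_max_right _ _)).trans hX
  have hX3' : (1 : ℝ) ≤ X := by exact_mod_cast hX3
  have hL := hX₂ X hX2
  set Y : ℝ := (X : ℝ) ^ (1 / 3 : ℝ) with hY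
  have hY1 : 1 ≤ Y := Real.one_le_rpow hX3' (by norm_num)
  have hY3 : Y ^ 3 = X := by
    rw [hY, ← Real.rpow_natCast, ← Real.rpow_mul (by positivity)]
    norm_num
  set z : ℕ := ⌈3 * Y⌉₊ with hz
  have hz1 : 3 * Y ≤ z := Nat.le_ceil _
  have hz2 : (z : ℝ) ≤ 4 * Y := by
    have := (Nat.ceil_lt_add_one (by positivity : 0 ≤ 3 * Y)).le
    linarith
  have hz3 : (z : ℝ) ^ 3 ≤ 512 * X := by
    have := pow_le_pow_left₀ (by positivity) hz2 3
    have e : (4 * Y) ^ 3 = 64 * X := by rw [← hY3]; ring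
    linarith
  have hz4 : 9 * X ≤ z ^ 3 := by
    have := pow_le_pow_left₀ (by positivity) hz1 3
    have e : (3 * Y) ^ 3 = 27 * X := by rw [← hY3]; ring
    have h1 : (9 * X : ℝ) ≤ (z : ℝ) ^ 3 := by linarith
    exact_mod_cast h1
  have hmul : ∀ m n : ℕ, (fun n : ℕ => χ (n : ZMod q)) (m * n) =
      (fun n : ℕ => χ (n : ZMod q)) m * (fun n : ℕ => χ (n : ZMod q)) n := by
    intro m n
    simp only [Nat.cast_mul, map_mul]
  have hone : (fun n : ℕ => χ (n : ZMod q)) 1 = 1 := by simp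
  have hid := hHB (fun n : ℕ => χ (n : ZMod q)) hmul hone z x2
  rcases hc with hc | hc
  · refine total B U Cm X₁ hpc X hX1 hL q hqz hq χ z hz3 C₀ hC₀ T hT1 hT2 x1 x2 hx1 hx2
      (fun j => (j + 1) + (j + 1)) (fun j hj => by constructor <;> omega)
      (fun j => HBL (fun n : ℕ => χ (n : ZMod q)) z j) ?_ c ?_
    · intro j i
      refine Fin.addCases (fun i => ?_) (fun i => ?_) i
      · left
        funext n
        simp only [HBL, Fin.addCases_left]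
      · by_cases hij : (i : ℕ) = j
        · right; right
          funext n
          simp only [HBL, Fin.addCases_right, hij, if_true]
        · right; left
          funext n
          simp only [HBL, Fin.addCases_right, hij, if_false]
    · intro n hn
      simp only [Finset.mem_Ioc] at hn
      rw [hc]
      exact (hid n (by omega) hn.2 (by omega)).1
  · refine total B U Cm X₁ hpc X hX1 hL q hqz hq χ z hz3 C₀ hC₀ T hT1 hT2 x1 x2 hx1 hx2
      (fun j => (j + 1) + j) (fun j hj => by constructor <;> omega)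
      (fun j => HBM (fun n : ℕ => χ (n : ZMod q)) z j) ?_ c ?_
    · intro j i
      refine Fin.addCases (fun i => ?_) (fun i => ?_) i
      · left
        funext n
        simp only [HBM, Fin.addCases_left]
      · right; left
        funext n
        simp only [HBM, Fin.addCases_right]
    · intro n hn
      simp only [Finset.mem_Ioc] at hn
      rw [hc]
      exact (hid n (by omega) hn.2 (by omega)).2

/-- **DPL** -/
theorem dpl : S_HB → S_MVG → S_PW → S_CHR → S_FD → S_DPL := fun hHB =>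
  dpl3 (fun g h1 h2 z X n h3 h4 h5 => hHB g h1 h2 3 z X n h3 h4 h5)

end Pool.Agent.V5helper24.CR
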