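import Mathlib
import Pool.Agent.V5helper24.CR.DPL

/-!
# Project CR, job SIC: primes and the Moebius function with characters in almost all short intervals

Assembly of `S_DPL`, `S_WIN`, `S_LOW`, `S_FD` (statements in `Pool/Agent/Q236/CR/Stm.lean`).
-/

set_option autoImplicit false

namespace Pool.Agent.V5helper24.CR

open Finset Filter MeasureTheory
open Pool.Agent.Q236.CR

lemma int_bound (g : ℝ → ℝ) (hg : Continuous g) (A x a T : ℝ) (hA : 0 ≤ A) (ha : 0 < a) (haT : a ≤ T)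
    (h : ∀ τ, a ≤ τ → τ ≤ T → g τ ≤ A * (x ^ 2 / τ ^ 2 + T ^ 2)) :
    ∫ τ in a..T, g τ ≤ A * (x ^ 2 / a + T ^ 3) := by
  have hpos : ∀ τ ∈ Set.uIcc a T, 0 < τ := by
    intro τ hτ
    rw [Set.uIcc_of_le haT] at hτ
    exact ha.trans_le hτ.1
  have hcont : ContinuousOn (fun τ : ℝ => A * (x ^ 2 / τ ^ 2 + T ^ 2)) (Set.uIcc a T) := by
    apply ContinuousOn.mul continuousOn_const
    apply ContinuousOn.add _ continuousOn_const
    apply ContinuousOn.div continuousOn_const (continuousOn_id.pow 2)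
    intro τ hτ
    have := hpos τ hτ
    show τ ^ 2 ≠ 0
    positivity
  have h1 : ∫ τ in a..T, g τ ≤ ∫ τ in a..T, A * (x ^ 2 / τ ^ 2 + T ^ 2) := by
    apply intervalIntegral.integral_mono_on haT (hg.intervalIntegrable _ _) hcont.intervalIntegrable
    intro τ hτ
    exact h τ hτ.1 hτ.2
  have h2 : ∫ τ in a..T, A * (x ^ 2 / τ ^ 2 + T ^ 2) =
      A * (-(x ^ 2) / T + T ^ 2 * T) - A * (-(x ^ 2) / a + T ^ 2 * a) := by
    apply intervalIntegral.integral_eq_sub_of_hasDerivAt (f := fun τ => A * (-(x ^ 2) / τ + T ^ 2 * τ)) _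
      hcont.intervalIntegrable
    intro τ hτ
    have hτ0 := hpos τ hτ
    have h3 : HasDerivAt (fun τ : ℝ => -(x ^ 2) / τ) (x ^ 2 / τ ^ 2) τ := by
      have := (hasDerivAt_inv hτ0.ne').const_mul (-(x ^ 2))
      have e1 : (fun τ : ℝ => -(x ^ 2) / τ) = fun τ => -(x ^ 2) * τ⁻¹ := by
        funext y; rw [div_eq_mul_inv]
      have e2 : x ^ 2 / τ ^ 2 = -(x ^ 2) * -(τ ^ 2)⁻¹ := by
        rw [div_eq_mul_inv]; ring
      rw [e1, e2]
      exact this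
    have h4 : HasDerivAt (fun τ : ℝ => T ^ 2 * τ) (T ^ 2) τ := by
      simpa using (hasDerivAt_id τ).const_mul (T ^ 2)
    exact (h3.add h4).const_mul A
  rw [h2] at h1
  have hT : 0 < T := by linarith
  have h3 : 0 ≤ A * (x ^ 2 / T) := by positivity
  have h4 : 0 ≤ A * (T ^ 2 * a) := by positivity
  have e : A * (-(x ^ 2) / T + T ^ 2 * T) - A * (-(x ^ 2) / a + T ^ 2 * a) =
      A * (x ^ 2 / a + T ^ 3) - A * (x ^ 2 / T) - A * (T ^ 2 * a) := by ring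
  rw [e] at h1
  linarith

/-- the sum of `n^{-iτ}` over `(x, 9x]`, from FD with `q = 1` -/
lemma sum_nt (Cf : ℝ) (hCf : 1 ≤ Cf)
    (hFD : ∀ (q : ℕ) (_ : NeZero q) (χ : DirichletCharacter ℂ q) (M u v : ℕ) (τ : ℝ),
      1 ≤ M → M ≤ u + 1 → v ≤ 2 * M → 1 ≤ |τ| →
      ‖∑ n ∈ Finset.Ioc u v, χ (n : ZMod q) * nt τ n‖ ≤ Cf * (M / |τ| + q * |τ|) ∧
      ‖∑ n ∈ Finset.Ioc u v, (χ (n : ZMod q) * (Real.log n : ℂ)) * nt τ n‖ ≤
        Cf * (M / |τ| + q * |τ|) * (1 + Real.log M))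
    (x : ℕ) (hx : 1 ≤ x) (τ : ℝ) (hτ : 1 ≤ |τ|) :
    ‖∑ n ∈ Finset.Ioc x (9 * x), nt τ n‖ ≤ 15 * Cf * (x / |τ| + |τ|) := by
  have h : ∀ M u v : ℕ, 1 ≤ M → M ≤ u + 1 → v ≤ 2 * M →
      ‖∑ n ∈ Finset.Ioc u v, nt τ n‖ ≤ Cf * (M / |τ| + |τ|) := by
    intro M u v h1 h2 h3
    have := (hFD 1 inferInstance 1 M u v τ h1 h2 h3 hτ).1
    have e : ∑ n ∈ Finset.Ioc u v, (1 : DirichletCharacter ℂ 1) (n : ZMod 1) * nt τ n =
        ∑ n ∈ Finset.Ioc u v, nt τ n := by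
      apply Finset.sum_congr rfl
      intro n _
      have : (1 : DirichletCharacter ℂ 1) (n : ZMod 1) = 1 := by
        have hn : (n : ZMod 1) = 1 := Subsingleton.elim _ _
        rw [hn, map_one]
      rw [this, one_mul]
    rw [e] at this
    simpa using this
  have e : ∑ n ∈ Finset.Ioc x (9 * x), nt τ n = ∑ n ∈ Finset.Ioc x (2 * x), nt τ n +
      ∑ n ∈ Finset.Ioc (2 * x) (4 * x), nt τ n + ∑ n ∈ Finset.Ioc (4 * x) (8 * x), nt τ n +
      ∑ n ∈ Finset.Ioc (8 * x) (9 * x), nt τ n := by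
    rw [Finset.sum_Ioc_consecutive _ (by omega) (by omega), Finset.sum_Ioc_consecutive _ (by omega) (by omega),
      Finset.sum_Ioc_consecutive _ (by omega) (by omega)]
  have h1 := h x x (2 * x) hx (by omega) le_rfl
  have h2 := h (2 * x) (2 * x) (4 * x) (by omega) (by omega) (by omega)
  have h3 := h (4 * x) (4 * x) (8 * x) (by omega) (by omega) (by omega)
  have h4 := h (8 * x) (8 * x) (9 * x) (by omega) (by omega) (by omega)
  rw [e]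
  have h5 := norm_add_le (∑ n ∈ Finset.Ioc x (2 * x), nt τ n + ∑ n ∈ Finset.Ioc (2 * x) (4 * x), nt τ n +
    ∑ n ∈ Finset.Ioc (4 * x) (8 * x), nt τ n) (∑ n ∈ Finset.Ioc (8 * x) (9 * x), nt τ n)
  have h6 := norm_add_le (∑ n ∈ Finset.Ioc x (2 * x), nt τ n + ∑ n ∈ Finset.Ioc (2 * x) (4 * x), nt τ n)
    (∑ n ∈ Finset.Ioc (4 * x) (8 * x), nt τ n)
  have h7 := norm_add_le (∑ n ∈ Finset.Ioc x (2 * x), nt τ n) (∑ n ∈ Finset.Ioc (2 * x) (4 * x), nt τ n)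
  have hτ0 : 0 ≤ Cf * |τ| := by positivity
  push_cast at h2 h3 h4
  have e2 : Cf * (2 * (x : ℝ) / |τ| + |τ|) = 2 * (Cf * (x / |τ|)) + Cf * |τ| := by ring
  have e3 : Cf * (4 * (x : ℝ) / |τ| + |τ|) = 4 * (Cf * (x / |τ|)) + Cf * |τ| := by ring
  have e4 : Cf * (8 * (x : ℝ) / |τ| + |τ|) = 8 * (Cf * (x / |τ|)) + Cf * |τ| := by ring
  have e1 : Cf * ((x : ℝ) / |τ| + |τ|) = Cf * (x / |τ|) + Cf * |τ| := by ring
  have e5 : 15 * Cf * ((x : ℝ) / |τ| + |τ|) = 15 * (Cf * (x / |τ|)) + 15 * (Cf * |τ|) := by ring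
  rw [e1] at h1; rw [e2] at h2; rw [e3] at h3; rw [e4] at h4; rw [e5]
  linarith

lemma cont_S (c : ℕ → ℂ) (x1 x2 : ℕ) : Continuous (fun τ => ∑ n ∈ Ioc x1 x2, c n * nt τ n) := by
  apply continuous_finsetSum
  intro n hn
  apply Continuous.mul continuous_const
  apply cont_nt
  simp only [Finset.mem_Ioc] at hn
  omega

/-- from the three ranges of heights to windows -/
lemma window (Cw : ℝ) (hCw : 1 ≤ Cw)
    (hWIN : ∀ (a : ℕ → ℂ) (x Y : ℕ) (T : ℝ), 1 ≤ Y → 10 * Y ≤ x → 1 ≤ T →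
      ∑ m ∈ Finset.Ioc x (2 * x), ‖∑ n ∈ Finset.Ioc m (m + Y), a n‖ ^ 2 ≤
        Cw * ((Y : ℝ) ^ 2 / x) * (∫ τ in (-T)..T, ‖∑ n ∈ Finset.Ioc x (9 * x), a n * nt τ n‖ ^ 2) +
        Cw * (x / T + (x : ℝ) ^ 2 * (1 + Real.log x) / T ^ 2) * ∑ n ∈ Finset.Ioc x (9 * x), ‖a n‖ ^ 2)
    (x Y : ℕ) (hY : 1 ≤ Y) (hYx : 10 * Y ≤ x) (c : ℕ → ℂ) (U C₀ K : ℕ) (T G : ℝ) (hG : 0 ≤ G)
    (hL : Cw * (2 * G + 98) ≤ Real.log x)
    (hT0 : Real.log x ^ C₀ ≤ T) (hTV : ((x : ℝ) / Y) * Real.log x ^ (U + 4) ≤ T)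
    (hK : C₀ + U + 1 ≤ 2 * K)
    (h1 : ∀ τ : ℝ, |τ| ≤ Real.log x ^ C₀ → ‖∑ n ∈ Finset.Ioc x (9 * x), c n * nt τ n‖ ≤ x / Real.log x ^ K)
    (h2 : ∫ τ in (Real.log x ^ C₀)..T, ‖∑ n ∈ Finset.Ioc x (9 * x), c n * nt τ n‖ ^ 2 ≤
      G * ((x : ℝ) ^ 2 / Real.log x ^ (U + 1)))
    (h3 : ∫ τ in (-T)..(-Real.log x ^ C₀), ‖∑ n ∈ Finset.Ioc x (9 * x), c n * nt τ n‖ ^ 2 ≤
      G * ((x : ℝ) ^ 2 / Real.log x ^ (U + 1)))
    (h4 : ∀ n ∈ Finset.Ioc x (9 * x), ‖c n‖ ≤ 2 * Real.log x) :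
    ∑ m ∈ Finset.Ioc x (2 * x), ‖∑ n ∈ Finset.Ioc m (m + Y), c n‖ ^ 2 ≤ x * (Y : ℝ) ^ 2 / Real.log x ^ U := by
  set L := Real.log x with hLdef
  have hL98 : 98 ≤ L := by nlinarith
  have hL1 : 1 ≤ L := by linarith
  have hL0 : 0 < L := by linarith
  have ha : 1 ≤ L ^ C₀ := one_le_pow₀ hL1
  have hT1 : 1 ≤ T := ha.trans hT0
  have hTp : 0 < T := by linarith
  have hx0 : (0 : ℝ) < x := by exact_mod_cast (by omega : 0 < x)
  have hY1 : (1 : ℝ) ≤ Y := by exact_mod_cast hY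
  have hY0 : (0 : ℝ) < Y := by linarith
  refine (hWIN c x Y T hY hYx hT1).trans ?_
  set S : ℝ → ℝ := fun τ => ‖∑ n ∈ Finset.Ioc x (9 * x), c n * nt τ n‖ ^ 2 with hS
  have hScont : Continuous S := (cont_S c x (9 * x)).norm.pow 2
  have hi : ∀ u v : ℝ, IntervalIntegrable S volume u v := fun u v => hScont.intervalIntegrable u v
  set E := (x : ℝ) ^ 2 / L ^ (U + 1) with hE
  have hE0 : 0 ≤ E := by positivity
  -- middle range
  have hmid : ∫ τ in (-(L ^ C₀))..(L ^ C₀), S τ ≤ 2 * E := by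
    have m1 : ∫ τ in (-(L ^ C₀))..(L ^ C₀), S τ ≤ ∫ _τ in (-(L ^ C₀))..(L ^ C₀), (x / L ^ K) ^ 2 := by
      apply intervalIntegral.integral_mono_on (by linarith) (hi _ _) (by simp)
      intro τ hτ
      exact pow_le_pow_left₀ (norm_nonneg _) (h1 τ (abs_le.mpr hτ)) 2
    refine m1.trans ?_
    rw [intervalIntegral.integral_const, smul_eq_mul]
    have e : (L ^ C₀ - -(L ^ C₀)) * ((x : ℝ) / L ^ K) ^ 2 = 2 * ((x : ℝ) ^ 2 * (L ^ C₀ / L ^ (2 * K))) := by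
      rw [div_pow, ← pow_mul, mul_comm K 2]; ring
    rw [e, hE]
    have m2 : L ^ C₀ / L ^ (2 * K) ≤ 1 / L ^ (U + 1) := by
      rw [div_le_div_iff₀ (by positivity) (by positivity), ← pow_add, one_mul]
      exact pow_le_pow_right₀ hL1 (by omega)
    have m3 := mul_le_mul_of_nonneg_left m2 (by positivity : 0 ≤ (x : ℝ) ^ 2)
    rw [mul_one_div] at m3
    linarith
  have hint : ∫ τ in (-T)..T, S τ ≤ (2 * G + 2) * E := by
    rw [← intervalIntegral.integral_add_adjacent_intervals (hi (-T) (L ^ C₀)) (hi (L ^ C₀) T),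
      ← intervalIntegral.integral_add_adjacent_intervals (hi (-T) (-(L ^ C₀))) (hi (-(L ^ C₀)) (L ^ C₀))]
    linarith
  have hfirst : Cw * ((Y : ℝ) ^ 2 / x) * (∫ τ in (-T)..T, S τ) ≤
      Cw * (2 * G + 2) * (x * (Y : ℝ) ^ 2 / L ^ (U + 1)) := by
    have := mul_le_mul_of_nonneg_left hint (by positivity : 0 ≤ Cw * ((Y : ℝ) ^ 2 / x))
    refine this.trans (le_of_eq ?_)
    rw [hE]; field_simp
  -- the tail
  have hsum : ∑ n ∈ Finset.Ioc x (9 * x), ‖c n‖ ^ 2 ≤ 32 * x * L ^ 2 := by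
    calc ∑ n ∈ Finset.Ioc x (9 * x), ‖c n‖ ^ 2 ≤ ∑ _n ∈ Finset.Ioc x (9 * x), (2 * L) ^ 2 :=
          Finset.sum_le_sum (fun n hn => pow_le_pow_left₀ (norm_nonneg _) (h4 n hn) 2)
      _ = 32 * x * L ^ 2 := by
          rw [Finset.sum_const, Nat.card_Ioc, nsmul_eq_mul]
          have : ((9 * x - x : ℕ) : ℝ) = 8 * x := by
            rw [Nat.cast_sub (by omega)]; push_cast; ring
          rw [this]; ring
  have hxT : (x : ℝ) / T ≤ Y / L ^ (U + 4) := by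
    rw [div_le_div_iff₀ hTp (by positivity)]
    have : (x : ℝ) / Y * L ^ (U + 4) * Y = x * L ^ (U + 4) := by field_simp
    have h5 := mul_le_mul_of_nonneg_right hTV hY0.le
    rw [this] at h5
    linarith
  have hxT0 : 0 ≤ (x : ℝ) / T := by positivity
  have htail : (x : ℝ) / T + (x : ℝ) ^ 2 * (1 + L) / T ^ 2 ≤ 3 * L * ((Y : ℝ) ^ 2 / L ^ (U + 4)) := by
    have e : (x : ℝ) ^ 2 * (1 + L) / T ^ 2 = ((x : ℝ) / T) ^ 2 * (1 + L) := by
      rw [div_pow]; ring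
    rw [e]
    have t1 : ((x : ℝ) / T) ^ 2 ≤ (Y / L ^ (U + 4)) ^ 2 := pow_le_pow_left₀ hxT0 hxT 2
    have hLp : 1 ≤ L ^ (U + 4) := one_le_pow₀ hL1
    have t2 : (Y / L ^ (U + 4)) ^ 2 ≤ (Y : ℝ) ^ 2 / L ^ (U + 4) := by
      rw [div_pow]
      apply div_le_div_of_nonneg_left (by positivity) (by positivity)
      nlinarith
    have t3 : (Y : ℝ) / L ^ (U + 4) ≤ (Y : ℝ) ^ 2 / L ^ (U + 4) := by
      apply div_le_div_of_nonneg_right _ (by positivity)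
      nlinarith
    have t0 : 0 ≤ (Y : ℝ) ^ 2 / L ^ (U + 4) := by positivity
    have t4 : ((x : ℝ) / T) ^ 2 * (1 + L) ≤ (Y : ℝ) ^ 2 / L ^ (U + 4) * (2 * L) :=
      mul_le_mul (t1.trans t2) (by linarith) (by linarith) t0
    nlinarith
  have hsecond : Cw * (x / T + (x : ℝ) ^ 2 * (1 + L) / T ^ 2) * ∑ n ∈ Finset.Ioc x (9 * x), ‖c n‖ ^ 2 ≤
      Cw * 96 * (x * (Y : ℝ) ^ 2 / L ^ (U + 1)) := by
    calc Cw * (x / T + (x : ℝ) ^ 2 * (1 + L) / T ^ 2) * ∑ n ∈ Finset.Ioc x (9 * x), ‖c n‖ ^ 2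
        ≤ Cw * (3 * L * ((Y : ℝ) ^ 2 / L ^ (U + 4))) * (32 * x * L ^ 2) := by
          apply mul_le_mul (mul_le_mul_of_nonneg_left htail (by linarith)) hsum
            (Finset.sum_nonneg (fun _ _ => by positivity)) (by positivity)
      _ = Cw * 96 * (x * (Y : ℝ) ^ 2 / L ^ (U + 1)) := by
          rw [show U + 4 = (U + 1) + 3 by ring, pow_add L (U + 1) 3]
          field_simp
          norm_num
  have hQ0 : 0 ≤ (x : ℝ) * (Y : ℝ) ^ 2 / L ^ (U + 1) := by positivity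
  have hfinal : Cw * (2 * G + 98) * (x * (Y : ℝ) ^ 2 / L ^ (U + 1)) ≤ x * (Y : ℝ) ^ 2 / L ^ U := by
    calc Cw * (2 * G + 98) * (x * (Y : ℝ) ^ 2 / L ^ (U + 1)) ≤ L * (x * (Y : ℝ) ^ 2 / L ^ (U + 1)) :=
          mul_le_mul_of_nonneg_right hL hQ0
      _ = x * (Y : ℝ) ^ 2 / L ^ U := by
          rw [pow_succ L U]; field_simp
  have : Cw * (2 * G + 2) * (x * (Y : ℝ) ^ 2 / L ^ (U + 1)) + Cw * 96 * (x * (Y : ℝ) ^ 2 / L ^ (U + 1)) =
      Cw * (2 * G + 98) * (x * (Y : ℝ) ^ 2 / L ^ (U + 1)) := by ring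
  linarith

/-- windows of length comparable to `x`, from LOW with `τ = 0` -/
lemma window_long (x Y : ℕ) (hY : Y ≤ x) (hYx : x ≤ 10 * Y) (c : ℕ → ℂ) (U K : ℕ)
    (hL : 100 ≤ Real.log x) (hK : U + 1 ≤ 2 * K)
    (h1 : ∀ x1 x2 : ℕ, x ≤ x1 → x2 ≤ 9 * x → ‖∑ n ∈ Finset.Ioc x1 x2, c n * nt 0 n‖ ≤ x / Real.log x ^ K) :
    ∑ m ∈ Finset.Ioc x (2 * x), ‖∑ n ∈ Finset.Ioc m (m + Y), c n‖ ^ 2 ≤ x * (Y : ℝ) ^ 2 / Real.log x ^ U := by
  set L := Real.log x with hLdef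
  have hL1 : 1 ≤ L := by linarith
  have hL0 : 0 < L := by linarith
  have hb : ∀ m ∈ Finset.Ioc x (2 * x), ‖∑ n ∈ Finset.Ioc m (m + Y), c n‖ ^ 2 ≤ (Y : ℝ) ^ 2 / L ^ U := by
    intro m hm
    simp only [Finset.mem_Ioc] at hm
    have h2 := h1 m (m + Y) hm.1.le (by omega)
    have e : ∑ n ∈ Finset.Ioc m (m + Y), c n * nt 0 n = ∑ n ∈ Finset.Ioc m (m + Y), c n := by
      apply Finset.sum_congr rfl
      intro n _
      simp [nt]
    rw [e] at h2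
    have h3 : (x : ℝ) ≤ 10 * Y := by exact_mod_cast hYx
    have h4 : (x : ℝ) / L ^ K ≤ 10 * Y / L ^ K := div_le_div_of_nonneg_right h3 (by positivity)
    calc ‖∑ n ∈ Finset.Ioc m (m + Y), c n‖ ^ 2 ≤ (10 * Y / L ^ K) ^ 2 :=
          pow_le_pow_left₀ (norm_nonneg _) (h2.trans h4) 2
      _ = (Y : ℝ) ^ 2 * (100 / L ^ (2 * K)) := by rw [div_pow, ← pow_mul, mul_comm K 2]; ring
      _ ≤ (Y : ℝ) ^ 2 * (1 / L ^ U) := by
          apply mul_le_mul_of_nonneg_left _ (by positivity)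
          rw [div_le_div_iff₀ (by positivity) (by positivity), one_mul]
          calc 100 * L ^ U ≤ L * L ^ U := mul_le_mul_of_nonneg_right hL (by positivity)
            _ = L ^ (U + 1) := by rw [pow_succ]; ring
            _ ≤ L ^ (2 * K) := pow_le_pow_right₀ hL1 hK
      _ = (Y : ℝ) ^ 2 / L ^ U := by ring
  refine (Finset.sum_le_sum hb).trans ?_
  rw [Finset.sum_const, Nat.card_Ioc, nsmul_eq_mul]
  have : ((2 * x - x : ℕ) : ℝ) = x := by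
    rw [Nat.cast_sub (by omega)]; push_cast; ring
  rw [this]
  exact le_of_eq (by ring)

lemma norm_cL {q : ℕ} (χ : DirichletCharacter ℂ q) (n : ℕ) : ‖cL χ n‖ ≤ Real.log n := by
  unfold cL
  rw [norm_mul]
  have h1 := DirichletCharacter.norm_le_one χ (n : ZMod q)
  have h2 : ‖(ArithmeticFunction.vonMangoldt n : ℂ)‖ ≤ Real.log n := by
    rw [Complex.norm_real, Real.norm_eq_abs, abs_of_nonneg ArithmeticFunction.vonMangoldt_nonneg]
    exact ArithmeticFunction.vonMangoldt_le_log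
  calc ‖χ (n : ZMod q)‖ * ‖(ArithmeticFunction.vonMangoldt n : ℂ)‖ ≤ 1 * Real.log n :=
        mul_le_mul h1 h2 (norm_nonneg _) zero_le_one
    _ = Real.log n := one_mul _

lemma norm_cM {q : ℕ} (χ : DirichletCharacter ℂ q) (n : ℕ) : ‖cM χ n‖ ≤ 1 := by
  unfold cM
  rw [norm_mul]
  have h1 := DirichletCharacter.norm_le_one χ (n : ZMod q)
  have := mul_le_mul h1 (norm_mu_le n) (norm_nonneg _) zero_le_one
  linarith

lemma log_pow_le_rpow (k : ℕ) : ∃ X₀ : ℕ, ∀ X : ℕ, X₀ ≤ X → Real.log X ^ k ≤ (X : ℝ) ^ (2 / 3 : ℝ) := by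
  have h := (isLittleO_log_rpow_rpow_atTop (k : ℝ) (by norm_num : (0 : ℝ) < 2 / 3)).bound
    (by norm_num : (0 : ℝ) < 1)
  have h2 := (tendsto_natCast_atTop_atTop (R := ℝ)).eventually h
  obtain ⟨X₀, hX₀⟩ := Filter.eventually_atTop.mp h2
  refine ⟨X₀ + 1, fun X hX => ?_⟩
  have h3 := hX₀ X (by omega)
  rw [one_mul, Real.rpow_natCast, Real.norm_eq_abs, Real.norm_eq_abs] at h3
  have h4 : 0 ≤ (X : ℝ) ^ (2 / 3 : ℝ) := by positivity
  rw [abs_of_nonneg h4] at h3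
  exact (le_abs_self _).trans h3

/-- **SIC** -/
theorem sic : S_DPL → S_WIN → S_LOW → S_FD → S_SIC := by
  intro hDPL hWIN hLOW hFD B U
  obtain ⟨Cw, hCw, hW⟩ := hWIN
  obtain ⟨Cf, hCf, hF⟩ := hFD
  obtain ⟨Cm, hD1⟩ := hDPL B (U + 1)
  set C₀ := max Cm (U + 1) with hC₀
  obtain ⟨C₁, X₁, hD⟩ := hD1 C₀ (le_max_left _ _)
  set K := C₀ + U + 1 with hK
  obtain ⟨X₂, hLo⟩ := hLOW B C₀ K
  set C₁' := C₁ + U + 1 with hC₁'
  obtain ⟨X₄, hX₄⟩ := log_pow_le_rpow (C₀ + C₁')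
  set G : ℝ := 2 + 1800 * Cf ^ 2 with hG
  obtain ⟨X₃, hX₃⟩ := exists_log_ge (Cw * (2 * G + 98))
  refine ⟨(U + 4) + C₁', max X₁ (max X₂ (max X₃ (max X₄ 1))), ?_⟩
  intro x hx q hqz hq χ Y hY1 hYx
  have hxX1 : X₁ ≤ x := (le_max_left _ _).trans hx
  have hxX2 : X₂ ≤ x := ((le_max_left _ _).trans (le_max_right _ _)).trans hx
  have hxX3 : X₃ ≤ x := ((le_max_left _ _).trans ((le_max_right _ _).trans (le_max_right _ _))).trans hx
  have hxX4 : X₄ ≤ x := ((le_max_left _ _).trans ((le_max_right _ _).trans ((le_max_right _ _).trans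
    (le_max_right _ _)))).trans hx
  have hx1 : 1 ≤ x := ((le_max_right _ _).trans ((le_max_right _ _).trans ((le_max_right _ _).trans
    (le_max_right _ _)))).trans hx
  have hLbig := hX₃ x hxX3
  have hG0 : 0 ≤ G := by positivity
  have hLo' := hLo x hxX2 q hqz hq χ
  set L := Real.log x with hLdef
  have hCf2 : 1 ≤ Cf ^ 2 := one_le_pow₀ hCf
  have hL100 : 100 ≤ L := by nlinarith
  have hL1 : 1 ≤ L := by linarith
  have hL0 : 0 < L := by linarith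
  have hx1' : (1 : ℝ) ≤ x := by exact_mod_cast hx1
  have hx0 : (0 : ℝ) < x := by linarith
  rcases Nat.lt_or_ge x (10 * Y) with hcase | hcase
  · constructor
    · refine window_long x Y hYx hcase.le _ U K hL100 (by omega) ?_
      intro x1 x2 h1 h2
      exact (hLo' 0 (by rw [abs_zero]; positivity) x1 x2 h1 h2).1
    · refine window_long x Y hYx hcase.le _ U K hL100 (by omega) ?_
      intro x1 x2 h1 h2
      exact (hLo' 0 (by rw [abs_zero]; positivity) x1 x2 h1 h2).2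
  -- the main case
  have hY1' : (1 : ℝ) ≤ Y := by
    have h1 : 1 ≤ (x : ℝ) ^ (1 / 3 : ℝ) := Real.one_le_rpow hx1' (by norm_num)
    have h2 : 1 ≤ L ^ ((U + 4) + C₁') := one_le_pow₀ hL1
    exact (one_le_mul_of_one_le_of_one_le h1 h2).trans hY1
  have hYn : 1 ≤ Y := by exact_mod_cast hY1'
  have hY0 : (0 : ℝ) < Y := by linarith
  set T : ℝ := max ((x : ℝ) / Y * L ^ (U + 4)) (L ^ C₀) with hT
  have hT1 : L ^ C₀ ≤ T := le_max_right _ _
  have hT2 : (x : ℝ) / Y * L ^ (U + 4) ≤ T := le_max_left _ _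
  have ha1 : 1 ≤ L ^ C₀ := one_le_pow₀ hL1
  have hT0 : 1 ≤ T := ha1.trans hT1
  have hT3 : T * L ^ C₁' ≤ (x : ℝ) ^ (2 / 3 : ℝ) := by
    rw [hT, max_mul_of_nonneg _ _ (by positivity)]
    apply max_le
    · have e : (x : ℝ) / Y * L ^ (U + 4) * L ^ C₁' = (x : ℝ) * L ^ ((U + 4) + C₁') / Y := by
        rw [pow_add L (U + 4)]; ring
      rw [e, div_le_iff₀ hY0]
      have h1 : (x : ℝ) = (x : ℝ) ^ (2 / 3 : ℝ) * (x : ℝ) ^ (1 / 3 : ℝ) := by
        rw [← Real.rpow_add hx0]; norm_num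
      calc (x : ℝ) * L ^ ((U + 4) + C₁')
          = (x : ℝ) ^ (2 / 3 : ℝ) * ((x : ℝ) ^ (1 / 3 : ℝ) * L ^ ((U + 4) + C₁')) := by
            rw [← mul_assoc, ← h1]
        _ ≤ (x : ℝ) ^ (2 / 3 : ℝ) * Y := mul_le_mul_of_nonneg_left hY1 (by positivity)
    · rw [← pow_add]; exact hX₄ x hxX4
  have hT4 : T * L ^ C₁ ≤ (x : ℝ) ^ (2 / 3 : ℝ) := by
    refine le_trans ?_ hT3
    exact mul_le_mul_of_nonneg_left (pow_le_pow_right₀ hL1 (by omega)) (by linarith)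
  have hT5 : T ^ 3 ≤ (x : ℝ) ^ 2 / L ^ (U + 1) := by
    rw [le_div_iff₀ (by positivity)]
    have h1 : (T * L ^ C₁') ^ 3 ≤ ((x : ℝ) ^ (2 / 3 : ℝ)) ^ 3 := pow_le_pow_left₀ (by positivity) hT3 3
    have h2 : ((x : ℝ) ^ (2 / 3 : ℝ)) ^ 3 = (x : ℝ) ^ 2 := by
      rw [← Real.rpow_natCast, ← Real.rpow_mul hx0.le, ← Real.rpow_natCast]
      norm_num
    rw [h2, mul_pow, ← pow_mul] at h1
    refine le_trans ?_ h1
    apply mul_le_mul_of_nonneg_left _ (by positivity)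
    exact pow_le_pow_right₀ hL1 (by omega)
  have hDx := hD x hxX1 q hqz hq χ T hT4 hT1 x (9 * x) le_rfl le_rfl
  set E := (x : ℝ) ^ 2 / L ^ (U + 1) with hE
  have hE0 : 0 ≤ E := by positivity
  -- the constant part
  have hconst : ∀ τ : ℝ, 1 ≤ |τ| → ‖∑ n ∈ Finset.Ioc x (9 * x), nt τ n‖ ^ 2 ≤
      450 * Cf ^ 2 * ((x : ℝ) ^ 2 / τ ^ 2 + τ ^ 2) := by
    intro τ hτ
    have h1 := sum_nt Cf hCf hF x hx1 τ hτ
    have h2 := pow_le_pow_left₀ (norm_nonneg _) h1 2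
    refine h2.trans ?_
    have h3 : ((x : ℝ) / |τ| + |τ|) ^ 2 ≤ 2 * (((x : ℝ) / |τ|) ^ 2 + |τ| ^ 2) := add_sq_le
    rw [div_pow, sq_abs] at h3
    have h4 := mul_le_mul_of_nonneg_left h3 (by positivity : 0 ≤ 225 * Cf ^ 2)
    calc (15 * Cf * ((x : ℝ) / |τ| + |τ|)) ^ 2 = 225 * Cf ^ 2 * ((x : ℝ) / |τ| + |τ|) ^ 2 := by ring
      _ ≤ 225 * Cf ^ 2 * (2 * ((x : ℝ) ^ 2 / τ ^ 2 + τ ^ 2)) := h4
      _ = 450 * Cf ^ 2 * ((x : ℝ) ^ 2 / τ ^ 2 + τ ^ 2) := by ring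
  have hone : Continuous (fun τ => ‖∑ n ∈ Finset.Ioc x (9 * x), nt τ n‖ ^ 2) := by
    have h := (cont_S (fun _ => 1) x (9 * x)).norm
    simp only [one_mul] at h
    exact h.pow 2
  have hxa : (x : ℝ) ^ 2 / L ^ C₀ ≤ E := by
    rw [hE]
    apply div_le_div_of_nonneg_left (by positivity) (by positivity)
    exact pow_le_pow_right₀ hL1 (le_max_right _ _)
  have hcint : ∫ τ in (L ^ C₀)..T, ‖∑ n ∈ Finset.Ioc x (9 * x), nt τ n‖ ^ 2 ≤ 900 * Cf ^ 2 * E := by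
    have := int_bound _ hone (450 * Cf ^ 2) x (L ^ C₀) T (by positivity) (by positivity) hT1 (by
      intro τ h1 h2
      refine (hconst τ (by rw [abs_of_nonneg (by linarith)]; linarith)).trans ?_
      apply mul_le_mul_of_nonneg_left _ (by positivity)
      have : τ ^ 2 ≤ T ^ 2 := pow_le_pow_left₀ (by linarith) h2 2
      linarith)
    refine this.trans ?_
    nlinarith
  have hcint' : ∫ τ in (-T)..(-L ^ C₀), ‖∑ n ∈ Finset.Ioc x (9 * x), nt τ n‖ ^ 2 ≤ 900 * Cf ^ 2 * E := by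
    rw [← intervalIntegral.integral_comp_neg (f := fun τ => ‖∑ n ∈ Finset.Ioc x (9 * x), nt τ n‖ ^ 2)]
    have := int_bound (fun τ => ‖∑ n ∈ Finset.Ioc x (9 * x), nt (-τ) n‖ ^ 2) (hone.comp continuous_neg)
      (450 * Cf ^ 2) x (L ^ C₀) T (by positivity) (by positivity) hT1 (by
      intro τ h1 h2
      refine (hconst (-τ) (by rw [abs_neg, abs_of_nonneg (by linarith)]; linarith)).trans ?_
      apply mul_le_mul_of_nonneg_left _ (by positivity)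
      have : τ ^ 2 ≤ T ^ 2 := pow_le_pow_left₀ (by linarith) h2 2
      rw [neg_sq]
      linarith)
    refine this.trans ?_
    nlinarith
  have hlog9 : ∀ n ∈ Finset.Ioc x (9 * x), Real.log n + 1 ≤ 2 * L := by
    intro n hn
    simp only [Finset.mem_Ioc] at hn
    have hn0 : (0 : ℝ) < n := by exact_mod_cast (by omega : 0 < n)
    have h1 : Real.log n ≤ Real.log (9 * x) := Real.log_le_log hn0 (by exact_mod_cast hn.2)
    rw [Real.log_mul (by norm_num) hx0.ne'] at h1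
    have h2 : Real.log 9 ≤ 9 - 1 := Real.log_le_sub_one_of_pos (by norm_num)
    linarith
  constructor
  · -- the von Mangoldt function
    set δ : ℂ := if χ = 1 then 1 else 0 with hδ
    have hδ1 : ‖δ‖ ≤ 1 := by
      rw [hδ]; split_ifs <;> simp
    obtain ⟨d1, d2⟩ := hDx (cL χ) (Or.inl rfl)
    have hsq : ∀ τ : ℝ, ‖∑ n ∈ Finset.Ioc x (9 * x), (cL χ n - δ) * nt τ n‖ ^ 2 ≤
        2 * ‖∑ n ∈ Finset.Ioc x (9 * x), cL χ n * nt τ n‖ ^ 2 +
        2 * ‖∑ n ∈ Finset.Ioc x (9 * x), nt τ n‖ ^ 2 := by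
      intro τ
      have e : ∑ n ∈ Finset.Ioc x (9 * x), (cL χ n - δ) * nt τ n =
          ∑ n ∈ Finset.Ioc x (9 * x), cL χ n * nt τ n - δ * ∑ n ∈ Finset.Ioc x (9 * x), nt τ n := by
        rw [Finset.mul_sum, ← Finset.sum_sub_distrib]
        apply Finset.sum_congr rfl
        intro n _; ring
      rw [e]
      have h1 := norm_sub_le (∑ n ∈ Finset.Ioc x (9 * x), cL χ n * nt τ n)
        (δ * ∑ n ∈ Finset.Ioc x (9 * x), nt τ n)
      rw [norm_mul] at h1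
      have h2 : ‖δ‖ * ‖∑ n ∈ Finset.Ioc x (9 * x), nt τ n‖ ≤ ‖∑ n ∈ Finset.Ioc x (9 * x), nt τ n‖ :=
        mul_le_of_le_one_left (norm_nonneg _) hδ1
      have h3 := pow_le_pow_left₀ (norm_nonneg _) (h1.trans (add_le_add_right h2 _)) 2
      refine h3.trans ?_
      have := add_sq_le (a := ‖∑ n ∈ Finset.Ioc x (9 * x), cL χ n * nt τ n‖)
        (b := ‖∑ n ∈ Finset.Ioc x (9 * x), nt τ n‖)
      linarith
    have hcl : Continuous (fun τ => ‖∑ n ∈ Finset.Ioc x (9 * x), cL χ n * nt τ n‖ ^ 2) :=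
      (cont_S (cL χ) x (9 * x)).norm.pow 2
    have hcd : Continuous (fun τ => ‖∑ n ∈ Finset.Ioc x (9 * x), (cL χ n - δ) * nt τ n‖ ^ 2) :=
      (cont_S (fun n => cL χ n - δ) x (9 * x)).norm.pow 2
    have hgen : ∀ u v : ℝ, u ≤ v →
        ∫ τ in u..v, ‖∑ n ∈ Finset.Ioc x (9 * x), cL χ n * nt τ n‖ ^ 2 ≤ E →
        ∫ τ in u..v, ‖∑ n ∈ Finset.Ioc x (9 * x), nt τ n‖ ^ 2 ≤ 900 * Cf ^ 2 * E →
        ∫ τ in u..v, ‖∑ n ∈ Finset.Ioc x (9 * x), (cL χ n - δ) * nt τ n‖ ^ 2 ≤ G * E := by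
      intro u v huv h1 h2
      have i1 : IntervalIntegrable (fun τ => 2 * ‖∑ n ∈ Finset.Ioc x (9 * x), cL χ n * nt τ n‖ ^ 2)
        volume u v := (continuous_const.mul hcl).intervalIntegrable _ _
      have i2 : IntervalIntegrable (fun τ => 2 * ‖∑ n ∈ Finset.Ioc x (9 * x), nt τ n‖ ^ 2)
        volume u v := (continuous_const.mul hone).intervalIntegrable _ _
      have h3 : ∫ τ in u..v, ‖∑ n ∈ Finset.Ioc x (9 * x), (cL χ n - δ) * nt τ n‖ ^ 2 ≤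
          ∫ τ in u..v, (2 * ‖∑ n ∈ Finset.Ioc x (9 * x), cL χ n * nt τ n‖ ^ 2 +
            2 * ‖∑ n ∈ Finset.Ioc x (9 * x), nt τ n‖ ^ 2) :=
        intervalIntegral.integral_mono_on huv (hcd.intervalIntegrable _ _) (i1.add i2) (fun τ _ => hsq τ)
      rw [intervalIntegral.integral_add i1 i2, intervalIntegral.integral_const_mul,
        intervalIntegral.integral_const_mul] at h3
      rw [hG]
      nlinarith
    refine window Cw hCw hW x Y hYn hcase (fun n => cL χ n - δ) U C₀ K T G hG0 hLbig hT1 hT2 (by omega)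
      ?_ ?_ ?_ ?_
    · intro τ hτ
      exact (hLo' τ hτ x (9 * x) le_rfl le_rfl).1
    · exact hgen _ _ hT1 d1 hcint
    · exact hgen _ _ (by linarith) d2 hcint'
    · intro n hn
      refine (norm_sub_le _ _).trans ?_
      have := norm_cL χ n
      have := hlog9 n hn
      linarith
  · obtain ⟨d1, d2⟩ := hDx (cM χ) (Or.inr rfl)
    have hGE : E ≤ G * E := by
      have : 1 ≤ G := by rw [hG]; nlinarith
      nlinarith
    refine window Cw hCw hW x Y hYn hcase (cM χ) U C₀ K T G hG0 hLbig hT1 hT2 (by omega)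
      ?_ (d1.trans hGE) (d2.trans hGE) ?_
    · intro τ hτ
      exact (hLo' τ hτ x (9 * x) le_rfl le_rfl).2
    · intro n hn
      have := norm_cM χ n
      linarith

end Pool.Agent.V5helper24.CR
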