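import Mathlib
import Pool.Agent.V5helper51.CR.Chr
import Pool.Agent.V5helper22.CR.LUP
import Pool.Agent.V5helper22.CR.LZF
import Pool.Agent.V5helper98.CR.MOC
import Pool.Agent.V5helper35.CR.PW
import Pool.Agent.V5helper35.CR.FD
import Pool.Agent.V5helper43.CR.HB
import Pool.Agent.V5helper43.CR.DV
import Pool.Agent.V5helper43.CR.MVG
import Pool.Agent.V5helper43.CR.WIN
import Pool.Agent.V5helper39.CR.LOW
import Pool.Agent.V5helper39.CR.SIAc
import Pool.Agent.V5helper24.CR.DPL
import Pool.Agent.V5helper24.CR.SIC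

/-!
# Project CR: the unconditional theorems

All the statements of `Pool/Agent/Q236/CR/Stm.lean` put together (authors of the parts: helper51, helper22, helper98,
helper35, helper43, helper39, helper24).
-/

set_option autoImplicit false

namespace Pool.Agent.V5helper24.CR

open Pool.Agent.Q236.CR

theorem lup_all : S_LUP := Pool.Agent.V5helper22.CR.lup Pool.Agent.V5helper51.CR.chr

theorem lzf_all : S_LZF := Pool.Agent.V5helper22.CR.lzf lup_all

theorem moc_all : S_MOC := Pool.Agent.V5helper98.CR.moc lzf_all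

theorem pw_all : S_PW := Pool.Agent.V5helper35.CR.pw Pool.Agent.V5helper51.CR.chr moc_all

theorem mvg_all : S_MVG := Pool.Agent.V5helper43.CR.mvg Pool.Agent.V5helper43.CR.dv

theorem hb3_all : S_HB3 := fun g h1 h2 z X n h3 h4 h5 =>
  Pool.Agent.V5helper43.CR.hb g h1 h2 3 z X n (by norm_num) h3 h4 h5

theorem dpl_all : S_DPL := dpl3 hb3_all mvg_all pw_all Pool.Agent.V5helper51.CR.chr Pool.Agent.V5helper35.CR.fd

theorem sic_all : S_SIC := sic dpl_all Pool.Agent.V5helper43.CR.win Pool.Agent.V5helper39.CR.low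
  Pool.Agent.V5helper35.CR.fd

theorem sia_all : S_SIA := Pool.Agent.V5helper39.CR.sia sic_all

end Pool.Agent.V5helper24.CR
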